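import Pool.Agent.H266R3.LDef

/-!
# `ℝ`-trees, molecules, condition (a), uniform regularity, relative weak compactness
-/

set_option autoImplicit false

noncomputable section

namespace Pool.Agent.R272.RT

open Set
open Pool.Agent.H266R3.LF

variable {T : Type} [MetricSpace T]

/-- `A` is an arc from `x` to `y`: the image of an injective path. -/
def IsArc (A : Set T) (x y : T) : Prop :=
  ∃ γ : ℝ → T, ContinuousOn γ (Icc 0 1) ∧ InjOn γ (Icc 0 1) ∧ γ 0 = x ∧ γ 1 = y ∧
    γ '' (Icc 0 1) = A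

/-- `ℝ`-trees: any two distinct points `x`, `y` are joined by a unique arc, and this arc is
isometric to `[0, d(x, y)]`. -/
def IsRTree (T : Type) [MetricSpace T] : Prop :=
  ∀ x y : T, x ≠ y → ∃ A : Set T, IsArc A x y ∧ (∀ B : Set T, IsArc B x y → B = A) ∧
    ∃ φ : ℝ → T, φ 0 = x ∧ φ (dist x y) = y ∧
      (∀ s ∈ Icc 0 (dist x y), ∀ t ∈ Icc 0 (dist x y), dist (φ s) (φ t) = |s - t|) ∧
      φ '' (Icc 0 (dist x y)) = A

/-- the point evaluation at `x`, as an element of the Lipschitz free space -/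
def dl (o x : T) : FreeSp T o := ⟨dlt T o x, dlt_mem x⟩

/-- molecules -/
def mol (o x y : T) : FreeSp T o := (dist x y)⁻¹ • (dl o x - dl o y)

/-- `F(A)`: the closed linear span of the point evaluations at the points of `A`. -/
def FA (o : T) (A : Set T) : Submodule ℝ (FreeSp T o) :=
  (Submodule.span ℝ (dl o '' A)).topologicalClosure

/-- Condition (a). -/
def CondA (o : T) (W : Set (FreeSp T o)) : Prop :=
  ∀ ε : ℝ, 0 < ε → ∃ δ : ℝ, 0 < δ ∧ ∀ (n : ℕ) (a : Fin n → ℝ) (x y : Fin n → T),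
    (∀ i, x i ≠ y i) → ‖∑ i, a i • mol o (x i) (y i)‖ = ∑ i, |a i| →
    ∀ I : Finset (Fin n), ∑ i ∈ I, dist (x i) (y i) < δ →
      ∑ i ∈ I, |a i| ≤ ε + Metric.infDist (∑ i, a i • mol o (x i) (y i)) W

/-- uniform regularity -/
def UniformlyRegular (o : T) (W : Set (FreeSp T o)) : Prop :=
  ∀ U : Set T, IsOpen U → ∀ ε : ℝ, 0 < ε → ∃ K : Set T, IsCompact K ∧ K ⊆ U ∧
    ∀ w ∈ W, ∃ v ∈ FA o (K ∪ Uᶜ), ‖w - v‖ ≤ ε

/-- Relative weak compactness: the closure in the weak topology is weakly compact. -/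
def RelWeaklyCompact (o : T) (W : Set (FreeSp T o)) : Prop :=
  IsCompact (closure (toWeakSpace ℝ (FreeSp T o) '' W))

end Pool.Agent.R272.RT
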