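import Pool.Agent.R272.RT.Hyp
import Pool.Agent.R272.RT.Defs

/-!
# Pointed `0`-hyperbolic geodesic spaces are `ℝ`-trees
-/

set_option autoImplicit false

namespace Pool.Agent.R272.RT

open Set

variable {T : Type} [MetricSpace T]

namespace HTree

variable {o : T} (h : HTree T o)

include h

lemma four (x y z t : T) :
    dist x y + dist z t ≤ max (dist x z + dist y t) (dist x t + dist y z) := by
  have h1 := h.hyp x z y
  have h2 := h.hyp x t y
  have h3 := h.hyp z x t
  have h4 := h.hyp z y t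
  rw [min_le_iff] at h1 h2 h3 h4
  rw [le_max_iff]
  by_contra hcon
  push Not at hcon
  obtain ⟨c1, c2⟩ := hcon
  unfold gp at h1 h2 h3 h4
  rw [dist_comm z y] at h1
  rw [dist_comm t y] at h2
  rw [dist_comm z x] at h3
  rw [dist_comm z y] at h4
  rcases h1 with h1 | h1 <;> rcases h2 with h2 | h2 <;> rcases h3 with h3 | h3 <;>
    rcases h4 with h4 | h4 <;> linarith

/-- hyperbolicity with respect to any base point -/
lemma hyp' (w x y z : T) : min (gp w x y) (gp w y z) ≤ gp w x z := by
  have h1 := h.four x z w y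
  rw [min_le_iff]
  rw [le_max_iff] at h1
  unfold gp
  rw [dist_comm x w, dist_comm z w] at h1
  rw [dist_comm z y] at h1
  rcases h1 with h1 | h1
  · right; linarith
  · left; linarith

lemma exists_at (v : T) (u : ℝ) (h0 : 0 ≤ u) (h1 : u ≤ dist o v) :
    ∃ p, le o p v ∧ dist o p = u := by
  obtain ⟨p, hp1, hp2⟩ := h.geo v u h0 h1
  exact ⟨p, by rw [le_iff, hp1, hp2], hp1⟩

/-- existence of geodesics -/
lemma exists_geod (x y : T) : ∃ φ : ℝ → T, φ 0 = x ∧ φ (dist x y) = y ∧
      (∀ s ∈ Icc 0 (dist x y), ∀ t ∈ Icc 0 (dist x y), dist (φ s) (φ t) = |s - t|) := by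
  classical
  have hat : ∀ (v : T) (u : ℝ), ∃ p, 0 ≤ u → u ≤ dist o v → le o p v ∧ dist o p = u := by
    intro v u
    by_cases h0 : 0 ≤ u
    · by_cases h1 : u ≤ dist o v
      · obtain ⟨p, hp⟩ := h.exists_at v u h0 h1
        exact ⟨p, fun _ _ => hp⟩
      · exact ⟨o, fun _ h2 => absurd h2 h1⟩
    · exact ⟨o, fun h2 => absurd h2 h0⟩
  choose at' hat' using hat
  set m := h.meet x y with hm
  have hm1 : dist o m = gp o x y := h.meet_norm x y
  have hmx : dist o m ≤ dist o x := by rw [hm1]; exact gp_le_left x y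
  have hmy : dist o m ≤ dist o y := by rw [hm1]; exact gp_le_right x y
  have hm0 : 0 ≤ dist o m := dist_nonneg
  have hd : dist x y = dist o x + dist o y - 2 * dist o m := by
    rw [hm1]; exact dist_eq x y
  set c := dist o x - dist o m with hc
  let φ : ℝ → T := fun s => if s ≤ c then at' x (dist o x - s) else at' y (dist o m + (s - c))
  have hφ1 : ∀ s, 0 ≤ s → s ≤ c → le o (φ s) x ∧ dist o (φ s) = dist o x - s := by
    intro s h0 h1
    simp only [φ, if_pos h1]
    exact hat' x _ (by linarith) (by linarith)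
  have hφ2 : ∀ s, c < s → s ≤ dist x y → le o (φ s) y ∧ dist o (φ s) = dist o m + (s - c) := by
    intro s h0 h1
    simp only [φ, if_neg (not_le.2 h0)]
    exact hat' y _ (by linarith) (by linarith)
  refine ⟨φ, ?_, ?_, ?_⟩
  · obtain ⟨h1, h2⟩ := hφ1 0 le_rfl (by linarith)
    exact eq_of_le_of_norm h1 (by rw [h2]; linarith)
  · by_cases hcd : c < dist x y
    · obtain ⟨h1, h2⟩ := hφ2 (dist x y) hcd le_rfl
      exact eq_of_le_of_norm h1 (by rw [h2]; linarith)
    · have hym : dist o y ≤ dist o m := by linarith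
      have hyx : dist x y = c := by linarith
      obtain ⟨h1, h2⟩ := hφ1 (dist x y) dist_nonneg hyx.le
      have e1 : m = y := eq_of_le_of_norm (h.meet_right x y) hym
      have e2 : φ (dist x y) = m := by
        have h3 : le o (φ (dist x y)) m := h.le_of_norm_le h1 (h.meet_left x y) (by
          rw [h2, hyx]; linarith)
        exact eq_of_le_of_norm h3 (by rw [h2, hyx]; linarith)
      rw [e2, e1]
  · -- main case analysis
    have key : ∀ s ∈ Icc 0 (dist x y), ∀ t ∈ Icc 0 (dist x y), s ≤ t →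
        dist (φ s) (φ t) = t - s := by
      intro s hs t ht hst
      by_cases h1 : t ≤ c
      · obtain ⟨a1, a2⟩ := hφ1 t ht.1 h1
        obtain ⟨b1, b2⟩ := hφ1 s hs.1 (hst.trans h1)
        have h3 : le o (φ t) (φ s) := h.le_of_norm_le a1 b1 (by rw [a2, b2]; linarith)
        rw [dist_comm, (le_iff _ _).1 h3, a2, b2]; ring
      · push Not at h1
        obtain ⟨a1, a2⟩ := hφ2 t h1 ht.2
        by_cases h2 : s ≤ c
        · obtain ⟨b1, b2⟩ := hφ1 s hs.1 h2
          have hg : gp o (φ s) (φ t) = dist o m := by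
            apply le_antisymm
            · rw [← h.meet_norm]
              rw [hm1]
              exact h.norm_le_gp (h.le_trans (h.meet_left _ _) b1)
                (h.le_trans (h.meet_right _ _) a1)
            · apply h.norm_le_gp
              · exact h.le_of_norm_le (h.meet_left x y) b1 (by rw [b2]; linarith)
              · exact h.le_of_norm_le (h.meet_right x y) a1 (by rw [a2]; linarith)
          rw [dist_eq (o := o), hg, a2, b2]
          ring
        · push Not at h2
          obtain ⟨b1, b2⟩ := hφ2 s h2 hs.2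
          have h3 : le o (φ s) (φ t) := h.le_of_norm_le b1 a1 (by rw [a2, b2]; linarith)
          rw [(le_iff _ _).1 h3, a2, b2]; ring
    intro s hs t ht
    rcases le_total s t with hst | hst
    · rw [key s hs t ht hst, abs_sub_comm, abs_of_nonneg (by linarith)]
    · rw [dist_comm, key t ht s hs hst, abs_of_nonneg (by linarith)]

lemma unique_on_seg {x y z w : T} (h1 : dist x z + dist z y = dist x y)
    (h2 : dist x w + dist w y = dist x y) (h3 : dist x z = dist x w) : z = w := by
  have h4 := h.four x y z w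
  have h5 : dist z y = dist w y := by linarith
  rw [dist_comm y w, dist_comm y z, ← h5, ← h3, h1, max_self] at h4
  have := dist_nonneg (x := z) (y := w)
  exact dist_eq_zero.1 (by linarith)

/-- connected sets contain segments -/
lemma seg_subset {B : Set T} (hB : IsPreconnected B) {x y z : T} (hx : x ∈ B) (hy : y ∈ B)
    (hz : dist x z + dist z y = dist x y) : z ∈ B := by
  by_contra hzB
  have hxz : x ≠ z := fun e => hzB (e ▸ hx)
  have hyz : y ≠ z := fun e => hzB (e ▸ hy)
  have hcont : Continuous (fun w : T => gp z w x) := by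
    unfold gp; fun_prop
  have hU : IsOpen {w : T | 0 < gp z w x} := isOpen_lt continuous_const hcont
  have hV : IsOpen {w : T | w ≠ z ∧ gp z w x ≤ 0} := by
    rw [Metric.isOpen_iff]
    rintro w ⟨hw1, hw2⟩
    refine ⟨dist w z, dist_pos.2 hw1, ?_⟩
    intro w' hw'
    rw [Metric.mem_ball] at hw'
    have hne : w' ≠ z := by
      rintro rfl
      rw [dist_comm] at hw'
      exact lt_irrefl _ hw'
    refine ⟨hne, ?_⟩
    by_contra hcon
    push Not at hcon
    have h1 := h.hyp' z w w' x
    have h2 : 0 < gp z w w' := by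
      unfold gp
      have := dist_nonneg (x := z) (y := w')
      rw [dist_comm z w, dist_comm w w']
      linarith
    have h3 : 0 < min (gp z w w') (gp z w' x) := lt_min h2 hcon
    linarith
  have hsub : B ⊆ {w : T | 0 < gp z w x} ∪ {w : T | w ≠ z ∧ gp z w x ≤ 0} := by
    intro w hw
    by_cases hg : 0 < gp z w x
    · exact Or.inl hg
    · exact Or.inr ⟨fun e => hzB (e ▸ hw), not_lt.1 hg⟩
  obtain ⟨w, _, hw1, hw2⟩ := hB _ _ hU hV hsub
    ⟨x, hx, by
      change 0 < gp z x x
      rw [gp_self]; exact dist_pos.2 hxz.symm⟩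
    ⟨y, hy, hyz, by
      unfold gp
      rw [dist_comm z x, dist_comm y x]; linarith⟩
  exact absurd hw1 (not_lt.2 hw2.2)

theorem isRTree : IsRTree T := by
  intro x y hxy
  obtain ⟨φ, hφ0, hφ1, hφ⟩ := h.exists_geod x y
  have hd : 0 < dist x y := dist_pos.2 hxy
  -- the segment
  have hseg : φ '' (Icc 0 (dist x y)) = {z | dist x z + dist z y = dist x y} := by
    ext z
    constructor
    · rintro ⟨s, hs, rfl⟩
      have h1 := hφ 0 ⟨le_rfl, hd.le⟩ s hs
      have h2 := hφ s hs (dist x y) ⟨hd.le, le_rfl⟩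
      rw [hφ0] at h1
      rw [hφ1] at h2
      change dist x (φ s) + dist (φ s) y = dist x y
      rw [h1, h2, zero_sub, abs_neg, abs_of_nonneg hs.1, abs_sub_comm, abs_of_nonneg
        (by linarith [hs.2])]
      ring
    · intro hz
      have hz' : dist x z + dist z y = dist x y := hz
      have hs : dist x z ∈ Icc 0 (dist x y) := ⟨dist_nonneg, by
        have := dist_nonneg (x := z) (y := y)
        linarith⟩
      refine ⟨dist x z, hs, ?_⟩
      have h1 := hφ 0 ⟨le_rfl, hd.le⟩ _ hs
      have h2 := hφ _ hs (dist x y) ⟨hd.le, le_rfl⟩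
      rw [hφ0, zero_sub, abs_neg, abs_of_nonneg hs.1] at h1
      rw [hφ1, abs_sub_comm, abs_of_nonneg (by linarith [hs.2])] at h2
      exact (h.unique_on_seg hz' (by rw [h1, h2]; ring) h1.symm).symm
  refine ⟨{z | dist x z + dist z y = dist x y}, ?_, ?_, φ, hφ0, hφ1, hφ, hseg⟩
  · refine ⟨fun t => φ (dist x y * t), ?_, ?_, ?_, ?_, ?_⟩
    · have hmaps : ∀ t ∈ Icc (0:ℝ) 1, dist x y * t ∈ Icc 0 (dist x y) := fun t ht =>
        ⟨mul_nonneg hd.le ht.1, by nlinarith [ht.2]⟩
      apply LipschitzOnWith.continuousOn (K := Real.toNNReal (dist x y))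
      apply LipschitzOnWith.of_dist_le_mul
      intro s hs t ht
      rw [hφ _ (hmaps s hs) _ (hmaps t ht), Real.coe_toNNReal _ hd.le, Real.dist_eq, ← mul_sub,
        abs_mul, abs_of_pos hd]
    · intro s hs t ht hst
      have hmaps : ∀ t ∈ Icc (0:ℝ) 1, dist x y * t ∈ Icc 0 (dist x y) := fun t ht =>
        ⟨mul_nonneg hd.le ht.1, by nlinarith [ht.2]⟩
      have h1 := hφ _ (hmaps s hs) _ (hmaps t ht)
      have hst' : φ (dist x y * s) = φ (dist x y * t) := hst
      rw [hst', dist_self, ← mul_sub, abs_mul, abs_of_pos hd] at h1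
      rcases mul_eq_zero.1 h1.symm with h2 | h2
      · exact absurd h2 hd.ne'
      · exact sub_eq_zero.1 (abs_eq_zero.1 h2)
    · change φ (dist x y * 0) = x
      rw [mul_zero, hφ0]
    · change φ (dist x y * 1) = y
      rw [mul_one, hφ1]
    · rw [← hseg]
      have : (fun t => φ (dist x y * t)) = φ ∘ (fun t => dist x y * t) := rfl
      rw [this, Set.image_comp]
      congr 1
      ext s
      constructor
      · rintro ⟨t, ht, rfl⟩
        exact ⟨mul_nonneg hd.le ht.1, by
          change dist x y * t ≤ dist x y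
          nlinarith [ht.2]⟩
      · intro hs
        refine ⟨s / dist x y, ⟨div_nonneg hs.1 hd.le, (div_le_one hd).2 hs.2⟩, ?_⟩
        change dist x y * (s / dist x y) = s
        field_simp
  · rintro B ⟨γ, hγc, hγi, hγ0, hγ1, rfl⟩
    have h01 : (0:ℝ) ∈ Icc (0:ℝ) 1 := ⟨le_rfl, zero_le_one⟩
    have h11 : (1:ℝ) ∈ Icc (0:ℝ) 1 := ⟨zero_le_one, le_rfl⟩
    apply Set.Subset.antisymm
    · rintro w ⟨t, ht, rfl⟩
      by_contra hw
      have hw' : ¬ (dist x (γ t) + dist (γ t) y = dist x y) := hw
      have hg : 0 < gp (γ t) x y := by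
        unfold gp
        have h1 := dist_triangle x (γ t) y
        have h2 : dist x y < dist x (γ t) + dist (γ t) y := lt_of_le_of_ne h1 (Ne.symm hw')
        rw [dist_comm (γ t) x]
        linarith
      -- median
      obtain ⟨χ, hχ0, hχ1, hχ⟩ := h.exists_geod (γ t) x
      have hgx : gp (γ t) x y ≤ dist (γ t) x := gp_le_left x y
      set g := gp (γ t) x y with hgdef
      have hgI : g ∈ Icc 0 (dist (γ t) x) := ⟨hg.le, hgx⟩
      have e1 := hχ 0 ⟨le_rfl, dist_nonneg⟩ g hgI
      have e2 := hχ g hgI _ ⟨dist_nonneg, le_rfl⟩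
      rw [hχ0, zero_sub, abs_neg, abs_of_nonneg hg.le] at e1
      rw [hχ1, abs_sub_comm, abs_of_nonneg (by linarith)] at e2
      set p := χ g with hp
      have e3 := h.hyp' (γ t) p x y
      have e4 : gp (γ t) p x = g := by
        unfold gp; rw [e1, e2]; ring
      rw [e4, ← hgdef, min_self] at e3
      have e5 : dist (γ t) p + dist p y = dist (γ t) y := by
        apply le_antisymm _ (dist_triangle _ _ _)
        unfold gp at e3
        linarith
      have e6 : dist x p + dist p (γ t) = dist x (γ t) := by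
        rw [dist_comm x p, dist_comm p (γ t), dist_comm x (γ t), e1, e2]; ring
      have hB1 : IsPreconnected (γ '' (Icc 0 t)) :=
        isPreconnected_Icc.image γ (hγc.mono (Icc_subset_Icc le_rfl ht.2))
      have hB2 : IsPreconnected (γ '' (Icc t 1)) :=
        isPreconnected_Icc.image γ (hγc.mono (Icc_subset_Icc ht.1 le_rfl))
      have m1 : p ∈ γ '' (Icc 0 t) := h.seg_subset hB1 (x := x) (y := γ t)
        ⟨0, ⟨le_rfl, ht.1⟩, hγ0⟩ ⟨t, ⟨ht.1, le_rfl⟩, rfl⟩ e6
      have m2 : p ∈ γ '' (Icc t 1) := h.seg_subset hB2 (x := γ t) (y := y)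
        ⟨t, ⟨le_rfl, ht.2⟩, rfl⟩ ⟨1, ⟨ht.2, le_rfl⟩, hγ1⟩ e5
      obtain ⟨s1, hs1, hp1⟩ := m1
      obtain ⟨s2, hs2, hp2⟩ := m2
      have hs12 : s1 = s2 := hγi ⟨hs1.1, hs1.2.trans ht.2⟩ ⟨ht.1.trans hs2.1, hs2.2⟩
        (hp1.trans hp2.symm)
      have hst : s1 = t := le_antisymm hs1.2 (hs12 ▸ hs2.1)
      rw [hst] at hp1
      rw [← hp1, dist_self] at e1
      linarith
    · intro z hz
      exact h.seg_subset (isPreconnected_Icc.image γ hγc) ⟨0, h01, hγ0⟩ ⟨1, h11, hγ1⟩ hz

end HTree

end Pool.Agent.R272.RT
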