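import Pool.Agent.R272.RT.Arcs

/-!
# A concrete tree of nonnegative summable sequences
-/

set_option autoImplicit false

noncomputable section

namespace Pool.Agent.R272.RT

open Finset

/-- nonnegative summable sequences -/
structure TB : Type where
  fn : ℕ → ℝ
  nonneg : ∀ j, 0 ≤ fn j
  summ : Summable fn

namespace TB

lemma ext' {x y : TB} (h : ∀ j, x.fn j = y.fn j) : x = y := by
  cases x; cases y; congr; exact funext h

/-- partial sums -/
def S (x : TB) (k : ℕ) : ℝ := ∑ j ∈ range k, x.fn j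

/-- total sum -/
def tot (x : TB) : ℝ := ∑' j, x.fn j

lemma S_succ (x : TB) (k : ℕ) : x.S (k + 1) = x.S k + x.fn k := by
  unfold S; rw [sum_range_succ]

lemma S_le (x : TB) (k : ℕ) : x.S k ≤ x.tot :=
  x.summ.sum_le_tsum _ (fun j _ => x.nonneg j)

lemma S_mono (x : TB) {k l : ℕ} (h : k ≤ l) : x.S k ≤ x.S l :=
  sum_le_sum_of_subset_of_nonneg (range_mono h) (fun j _ _ => x.nonneg j)

lemma S_nonneg (x : TB) (k : ℕ) : 0 ≤ x.S k := sum_nonneg fun j _ => x.nonneg j

lemma tot_nonneg (x : TB) : 0 ≤ x.tot := tsum_nonneg x.nonneg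

lemma S_congr {x y : TB} {k : ℕ} (h : ∀ j < k, x.fn j = y.fn j) : x.S k = y.S k :=
  sum_congr rfl fun j hj => h j (mem_range.1 hj)

open Classical in
/-- the length of the common part -/
def cm (x y : TB) : ℝ :=
  if h : ∃ k, x.fn k ≠ y.fn k then x.S (Nat.find h) + min (x.fn (Nat.find h)) (y.fn (Nat.find h))
  else x.tot

lemma cm_eq {x y : TB} {k : ℕ} (h : ∀ j < k, x.fn j = y.fn j) (hk : x.fn k ≠ y.fn k) :
    cm x y = x.S k + min (x.fn k) (y.fn k) := by
  classical
  have hex : ∃ k, x.fn k ≠ y.fn k := ⟨k, hk⟩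
  have hf : Nat.find hex = k := by
    rw [Nat.find_eq_iff]
    exact ⟨hk, fun n hn => not_not.2 (h n hn)⟩
  unfold cm
  rw [dif_pos hex, hf]

lemma cm_self (x : TB) : cm x x = x.tot := by
  classical
  unfold cm
  rw [dif_neg]
  rintro ⟨k, hk⟩
  exact hk rfl

lemma exists_first {x y : TB} (h : x ≠ y) :
    ∃ k, (∀ j < k, x.fn j = y.fn j) ∧ x.fn k ≠ y.fn k := by
  classical
  have hex : ∃ k, x.fn k ≠ y.fn k := by
    by_contra hcon
    push Not at hcon
    exact h (ext' hcon)
  exact ⟨Nat.find hex, fun j hj => not_not.1 (Nat.find_min hex hj), Nat.find_spec hex⟩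

lemma cm_comm (x y : TB) : cm x y = cm y x := by
  by_cases h : x = y
  · rw [h]
  · obtain ⟨k, hk1, hk2⟩ := exists_first h
    rw [cm_eq hk1 hk2, cm_eq (fun j hj => (hk1 j hj).symm) hk2.symm, S_congr hk1, min_comm]

lemma cm_le (x y : TB) : cm x y ≤ x.tot := by
  by_cases h : x = y
  · rw [h, cm_self]
  · obtain ⟨k, hk1, hk2⟩ := exists_first h
    rw [cm_eq hk1 hk2]
    have := x.S_le (k + 1)
    rw [S_succ] at this
    have := min_le_left (x.fn k) (y.fn k)
    linarith

lemma S_le_cm {x y : TB} {m : ℕ} (h : ∀ j < m, x.fn j = y.fn j) : x.S m ≤ cm x y := by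
  by_cases hxy : x = y
  · rw [hxy, cm_self]; exact S_le _ _
  · obtain ⟨k, hk1, hk2⟩ := exists_first hxy
    have hmk : m ≤ k := by
      by_contra hcon
      exact hk2 (h k (not_le.1 hcon))
    rw [cm_eq hk1 hk2]
    have h1 := x.S_mono hmk
    have h2 : 0 ≤ min (x.fn k) (y.fn k) := le_min (x.nonneg k) (y.nonneg k)
    linarith

lemma cm_hyp (x y z : TB) : min (cm x y) (cm y z) ≤ cm x z := by
  by_cases hxy : x = y
  · rw [hxy]; exact min_le_right _ _
  by_cases hyz : y = z
  · rw [← hyz]; exact min_le_left _ _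
  obtain ⟨k, hk1, hk2⟩ := exists_first hxy
  obtain ⟨l, hl1, hl2⟩ := exists_first hyz
  rcases lt_trichotomy k l with hkl | hkl | hkl
  · have e1 : ∀ j < k, x.fn j = z.fn j := fun j hj => (hk1 j hj).trans (hl1 j (hj.trans hkl))
    have e2 : y.fn k = z.fn k := hl1 k hkl
    have e3 : x.fn k ≠ z.fn k := by rw [← e2]; exact hk2
    rw [cm_eq e1 e3, cm_eq hk1 hk2, ← e2]
    exact min_le_left _ _
  · subst hkl
    have e1 : ∀ j < k, x.fn j = z.fn j := fun j hj => (hk1 j hj).trans (hl1 j hj)
    rw [cm_eq hk1 hk2, cm_eq hl1 hl2]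
    have hS : y.S k = x.S k := (S_congr hk1).symm
    by_cases e3 : x.fn k = z.fn k
    · have h1 : x.S (k + 1) ≤ cm x z := S_le_cm (by
        intro j hj
        rcases Nat.lt_succ_iff_lt_or_eq.1 hj with h | h
        · exact e1 j h
        · rw [h]; exact e3)
      rw [S_succ] at h1
      refine (min_le_left _ _).trans ?_
      have := min_le_left (x.fn k) (y.fn k)
      linarith
    · rw [cm_eq e1 e3, hS]
      rw [← min_add_add_left, ← min_add_add_left, ← min_add_add_left]
      apply le_min
      · exact (min_le_left _ _).trans (min_le_left _ _)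
      · exact (min_le_right _ _).trans (min_le_right _ _)
  · have e1 : ∀ j < l, x.fn j = z.fn j := fun j hj => (hk1 j (hj.trans hkl)).trans (hl1 j hj)
    have e2 : x.fn l = y.fn l := hk1 l hkl
    have e3 : x.fn l ≠ z.fn l := by rw [e2]; exact hl2
    have hS : x.S l = y.S l := S_congr fun j hj => hk1 j (hj.trans hkl)
    rw [cm_eq e1 e3, cm_eq hl1 hl2, e2, hS]
    exact min_le_right _ _

lemma eq_of_cm {x y : TB} (h1 : x.tot ≤ cm x y) (h2 : y.tot ≤ cm x y) : x = y := by
  by_contra hxy
  obtain ⟨k, hk1, hk2⟩ := exists_first hxy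
  rw [cm_eq hk1 hk2] at h1 h2
  have h3 := x.S_le (k + 1)
  have h4 := y.S_le (k + 1)
  rw [S_succ] at h3 h4
  have h5 := min_le_left (x.fn k) (y.fn k)
  have h6 := min_le_right (x.fn k) (y.fn k)
  rw [← S_congr hk1] at h4
  apply hk2
  linarith

instance : MetricSpace TB where
  dist x y := x.tot + y.tot - 2 * cm x y
  dist_self x := by rw [cm_self]; ring
  dist_comm x y := by rw [cm_comm]; ring
  dist_triangle x y z := by
    have h1 := cm_hyp x y z
    have h2 := cm_le y z
    have h3 := cm_le y x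
    rw [cm_comm y x] at h3
    rw [min_le_iff] at h1
    rcases h1 with h1 | h1 <;> linarith
  eq_of_dist_eq_zero := by
    intro x y h
    have h1 := cm_le x y
    have h2 := cm_le y x
    rw [cm_comm y x] at h2
    have h' : x.tot + y.tot - 2 * cm x y = 0 := h
    apply eq_of_cm <;> linarith

lemma dist_def (x y : TB) : dist x y = x.tot + y.tot - 2 * cm x y := rfl

/-- the root -/
def root : TB := ⟨fun _ => 0, fun _ => le_rfl, summable_zero⟩

lemma tot_root : root.tot = 0 := by simp [tot, root]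

lemma cm_root (x : TB) : cm root x = 0 := by
  apply le_antisymm
  · have := cm_le root x
    rwa [tot_root] at this
  · have := S_le_cm (x := root) (y := x) (m := 0) (fun j hj => absurd hj (Nat.not_lt_zero j))
    simpa [S] using this

lemma dist_root (x : TB) : dist root x = x.tot := by
  rw [dist_def, tot_root, cm_root]; ring

lemma gp_root (x y : TB) : gp root x y = cm x y := by
  unfold gp
  rw [dist_root, dist_root, dist_def]; ring

/-- the tree property -/
theorem htree : HTree TB root where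
  hyp x y z := by
    rw [gp_root, gp_root, gp_root]; exact cm_hyp x y z
  geo x u h0 h1 := by
    rw [dist_root] at h1 ⊢
    rcases h1.eq_or_lt with h2 | h2
    · exact ⟨x, by rw [dist_root, h2], by rw [dist_self, h2]; ring⟩
    · -- find the coordinate
      have hlim : Filter.Tendsto (fun n => x.S n) Filter.atTop (nhds x.tot) :=
        x.summ.hasSum.tendsto_sum_nat
      have hex : ∃ n, u < x.S n := (hlim.eventually (lt_mem_nhds h2)).exists
      classical
      obtain ⟨n, hn1, hn2⟩ : ∃ n, u < x.S n ∧ ∀ m < n, x.S m ≤ u :=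
        ⟨Nat.find hex, Nat.find_spec hex, fun m hm => not_lt.1 (Nat.find_min hex hm)⟩
      cases n with
      | zero => simp [S] at hn1; linarith
      | succ k =>
        have hk : x.S k ≤ u := hn2 k (Nat.lt_succ_self k)
        rw [S_succ] at hn1
        let y : TB := ⟨fun j => if j < k then x.fn j else if j = k then u - x.S k else 0, by
          intro j
          split_ifs
          · exact x.nonneg j
          · linarith
          · exact le_rfl, by
          apply summable_of_ne_finset_zero (s := range (k + 1))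
          intro j hj
          rw [mem_range, not_lt] at hj
          rw [if_neg (by omega), if_neg (by omega)]⟩
        have hyj : ∀ j < k, y.fn j = x.fn j := fun j hj => if_pos hj
        have hyk : y.fn k = u - x.S k := by
          change (if k < k then _ else _) = _
          rw [if_neg (lt_irrefl k), if_pos rfl]
        have hyS : y.S k = x.S k := S_congr hyj
        have hytot : y.tot = u := by
          have : y.tot = y.S (k + 1) := by
            apply tsum_eq_sum
            intro j hj
            rw [mem_range, not_lt] at hj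
            change (if j < k then _ else _) = _
            rw [if_neg (by omega), if_neg (by omega)]
          rw [this, S_succ, hyS, hyk]; ring
        have hcm : cm y x = u := by
          rw [cm_eq hyj (by rw [hyk]; intro he; linarith), hyS, hyk, min_eq_left (by linarith)]
          ring
        refine ⟨y, by rw [dist_root, hytot], ?_⟩
        rw [dist_def, hytot, hcm]; ring

end TB

/-- The points of the Cantor set: binary digits. -/
def pt (X : ℕ → Bool) : TB where
  fn j := if X j then (1 / 2 : ℝ) ^ (j + 1) else 0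
  nonneg j := by split_ifs <;> positivity
  summ := by
    apply Summable.of_nonneg_of_le (f := fun j => (1 / 2 : ℝ) ^ (j + 1))
    · intro j; split_ifs <;> positivity
    · intro j; split_ifs
      · exact le_rfl
      · positivity
    · exact (summable_nat_add_iff 1).2 summable_geometric_two

lemma pt_fn (X : ℕ → Bool) (j : ℕ) : (pt X).fn j = if X j then (1 / 2 : ℝ) ^ (j + 1) else 0 := rfl

lemma pt_tail (X : ℕ → Bool) (k : ℕ) : (pt X).tot ≤ (pt X).S k + (1 / 2 : ℝ) ^ k := by
  have h1 : (pt X).tot = (pt X).S k + ∑' j, (pt X).fn (j + k) :=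
    ((pt X).summ.sum_add_tsum_nat_add k).symm
  rw [h1]
  have h2 : ∑' j, (pt X).fn (j + k) ≤ ∑' j : ℕ, (1 / 2 : ℝ) ^ k * (1 / 2) * (1 / 2) ^ j := by
    apply Summable.tsum_le_tsum
    · intro j
      rw [pt_fn]
      have : (1 / 2 : ℝ) ^ (j + k + 1) = (1 / 2 : ℝ) ^ k * (1 / 2) * (1 / 2) ^ j := by ring
      rw [this]
      split_ifs
      · exact le_rfl
      · positivity
    · exact (summable_nat_add_iff k).2 (pt X).summ
    · exact summable_geometric_two.mul_left _
  rw [tsum_mul_left, tsum_geometric_two] at h2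
  linarith

lemma pt_dist (X Y : ℕ → Bool) (k : ℕ) (h : ∀ j < k, X j = Y j) :
    dist (pt X) (pt Y) ≤ 2 * (1 / 2 : ℝ) ^ k := by
  have h0 : ∀ j < k, (pt X).fn j = (pt Y).fn j := fun j hj => by rw [pt_fn, pt_fn, h j hj]
  have h1 := TB.S_le_cm h0
  have h2 := pt_tail X k
  have h3 := pt_tail Y k
  rw [← TB.S_congr h0] at h3
  rw [TB.dist_def]
  linarith

lemma pt_tot_le (X : ℕ → Bool) : (pt X).tot ≤ 1 := by
  have := pt_tail X 0
  simpa [TB.S] using this

/-- finite sets as digits -/
def chr (A : Finset ℕ) : ℕ → Bool := fun j => decide (j ∈ A)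

lemma ptF_fn (A : Finset ℕ) (j : ℕ) :
    (pt (chr A)).fn j = if j ∈ A then (1 / 2 : ℝ) ^ (j + 1) else 0 := by
  rw [pt_fn, chr]; simp

lemma ptF_tot {A : Finset ℕ} {k : ℕ} (hA : A ⊆ range k) : (pt (chr A)).tot = (pt (chr A)).S k := by
  apply tsum_eq_sum
  intro j hj
  rw [ptF_fn, if_neg (fun h => hj (hA h))]

lemma ptF_agree {A : Finset ℕ} {k j : ℕ} (hj : j < k) :
    (pt (chr (insert k A))).fn j = (pt (chr A)).fn j := by
  rw [ptF_fn, ptF_fn]
  have : j ∈ insert k A ↔ j ∈ A := by
    rw [mem_insert]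
    exact ⟨fun h => h.resolve_left (by omega), fun h => Or.inr h⟩
  simp only [this]

lemma ptF_tot_insert {A : Finset ℕ} {k : ℕ} (hA : A ⊆ range k) :
    (pt (chr (insert k A))).tot = (pt (chr A)).tot + (1 / 2 : ℝ) ^ (k + 1) := by
  have h1 : insert k A ⊆ range (k + 1) := by
    intro j hj
    rw [mem_insert] at hj
    rw [mem_range]
    rcases hj with h | h
    · omega
    · have := mem_range.1 (hA h); omega
  rw [ptF_tot h1, TB.S_succ, TB.S_congr (fun j hj => ptF_agree hj), ← ptF_tot hA, ptF_fn,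
    if_pos (mem_insert_self _ _)]

lemma ptF_cm_insert {A : Finset ℕ} {k : ℕ} (hA : A ⊆ range k) :
    TB.cm (pt (chr A)) (pt (chr (insert k A))) = (pt (chr A)).tot := by
  have hk : (pt (chr A)).fn k = 0 := by
    rw [ptF_fn, if_neg]
    intro h
    exact absurd (mem_range.1 (hA h)) (lt_irrefl k)
  have hk' : (pt (chr (insert k A))).fn k = (1 / 2 : ℝ) ^ (k + 1) := by
    rw [ptF_fn, if_pos (mem_insert_self _ _)]
  rw [TB.cm_eq (k := k) (fun j hj => (ptF_agree hj).symm) (by
    rw [hk, hk']; positivity), hk, hk', min_eq_left (by positivity), ptF_tot hA]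
  ring

lemma ptF_le {A : Finset ℕ} {k : ℕ} (hA : A ⊆ range k) :
    le TB.root (pt (chr A)) (pt (chr (insert k A))) := by
  unfold le
  rw [TB.gp_root, ptF_cm_insert hA, TB.dist_root]

lemma ptF_dist {A : Finset ℕ} {k : ℕ} (hA : A ⊆ range k) :
    dist (pt (chr (insert k A))) (pt (chr A)) = (1 / 2 : ℝ) ^ (k + 1) := by
  rw [TB.dist_def, TB.cm_comm, ptF_cm_insert hA, ptF_tot_insert hA]
  ring

lemma ptF_sep {A A' : Finset ℕ} {k : ℕ} (hA : A ⊆ range k) (hA' : A' ⊆ range k) (hne : A ≠ A') :
    gp TB.root (pt (chr (insert k A))) (pt (chr (insert k A'))) ≤ dist TB.root (pt (chr A)) := by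
  rw [TB.gp_root, TB.dist_root]
  have hex : ∃ j, ¬ (j ∈ A ↔ j ∈ A') := by
    by_contra hcon
    push Not at hcon
    exact hne (Finset.ext hcon)
  classical
  obtain ⟨j, hj1, hj2⟩ : ∃ j, ¬ (j ∈ A ↔ j ∈ A') ∧ ∀ i < j, (i ∈ A ↔ i ∈ A') :=
    ⟨Nat.find hex, Nat.find_spec hex, fun i hi => not_not.1 (Nat.find_min hex hi)⟩
  have hjk : j < k := by
    by_contra hcon
    apply hj1
    constructor
    · intro h; exact absurd (mem_range.1 (hA h)) hcon
    · intro h; exact absurd (mem_range.1 (hA' h)) hcon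
  have e1 : ∀ i < j, (pt (chr (insert k A))).fn i = (pt (chr (insert k A'))).fn i := by
    intro i hi
    rw [ptF_agree (hi.trans hjk), ptF_agree (hi.trans hjk), ptF_fn, ptF_fn]
    simp only [hj2 i hi]
  have e2 : (pt (chr (insert k A))).fn j ≠ (pt (chr (insert k A'))).fn j ∧
      min ((pt (chr (insert k A))).fn j) ((pt (chr (insert k A'))).fn j) = 0 := by
    rw [ptF_agree hjk, ptF_agree hjk, ptF_fn, ptF_fn]
    have hp : (0:ℝ) < (1 / 2 : ℝ) ^ (j + 1) := by positivity
    by_cases h1 : j ∈ A <;> by_cases h2 : j ∈ A'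
    · exact absurd (iff_of_true h1 h2) hj1
    · rw [if_pos h1, if_neg h2]; exact ⟨hp.ne', min_eq_right hp.le⟩
    · rw [if_neg h1, if_pos h2]; exact ⟨hp.ne, min_eq_left hp.le⟩
    · exact absurd (iff_of_false h1 h2) hj1
  rw [TB.cm_eq e1 e2.1, e2.2, add_zero, TB.S_congr (fun i hi => ptF_agree (hi.trans hjk))]
  exact TB.S_le _ _

end Pool.Agent.R272.RT
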