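import Pool.Agent.R272.RT.Big

/-!
# The compact tree
-/

set_option autoImplicit false

noncomputable section

namespace Pool.Agent.R272.RT

open Finset

/-- downward closed subsets are trees -/
theorem HTree.sub {T : Type} [MetricSpace T] {o : T} (h : HTree T o) (D : Set T) (ho : o ∈ D)
    (hD : ∀ x ∈ D, ∀ y, le o y x → y ∈ D) : HTree (↥D) ⟨o, ho⟩ where
  hyp x y z := h.hyp x.1 y.1 z.1
  geo x u h0 h1 := by
    obtain ⟨y, hy1, hy2⟩ := h.geo x.1 u h0 h1
    have hle : le o y x.1 := by rw [le_iff, hy2, hy1]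
    exact ⟨⟨y, hD x.1 x.2 y hle⟩, hy1, hy2⟩

/-- the compact tree -/
def DD : Set TB := {x | ∃ X : ℕ → Bool, le TB.root x (pt X)}

/-- The compact tree, as a type. -/
abbrev TD : Type := ↥DD

lemma root_mem : TB.root ∈ DD := ⟨fun _ => false, o_le _⟩

/-- the root of the compact tree -/
def rt : TD := ⟨TB.root, root_mem⟩

theorem htreeD : HTree TD rt := TB.htree.sub DD root_mem (by
  rintro x ⟨X, hX⟩ y hy
  exact ⟨X, TB.htree.le_trans hy hX⟩)

/-- points of the Cantor set in the compact tree -/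
def pD (X : ℕ → Bool) : TD := ⟨pt X, X, le_refl _⟩

lemma pD_dist (X Y : ℕ → Bool) (k : ℕ) (h : ∀ j < k, X j = Y j) :
    dist (pD X) (pD Y) ≤ 2 * (1 / 2 : ℝ) ^ k := pt_dist X Y k h

lemma pD_norm (X : ℕ → Bool) : dist rt (pD X) ≤ 1 := by
  have : dist rt (pD X) = dist TB.root (pt X) := rfl
  rw [this, TB.dist_root]
  exact pt_tot_le X

lemma pD_continuous : Continuous pD := by
  rw [continuous_iff_continuousAt]
  intro X
  rw [Metric.continuousAt_iff']
  intro ε hε
  obtain ⟨k, hk⟩ := exists_pow_lt_of_lt_one (show (0:ℝ) < ε / 2 by positivity)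
    (show (1 / 2 : ℝ) < 1 by norm_num)
  have hev : ∀ᶠ Y in nhds X, ∀ j ∈ range k, Y j = X j := by
    rw [Filter.eventually_all_finset]
    intro j _
    have hc : Filter.Tendsto (fun Y : ℕ → Bool => Y j) (nhds X) (nhds (X j)) :=
      (continuous_apply j).tendsto X
    have h2 : ∀ᶠ b in nhds (X j), b = X j := by rw [nhds_discrete]; simp
    exact hc.eventually h2
  filter_upwards [hev] with Y hY
  have h1 := pD_dist Y X k (fun j hj => hY j (mem_range.2 hj))
  linarith

lemma le_pD (x : TD) : ∃ X : ℕ → Bool, le rt x (pD X) := by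
  obtain ⟨X, hX⟩ := x.2
  exact ⟨X, hX⟩

lemma exists_trunc (X : ℕ → Bool) (u : ℝ) (hu : 0 ≤ u) :
    ∃ p : TD, le rt p (pD X) ∧ dist rt p = min u (dist rt (pD X)) := by
  obtain ⟨p, hp1, hp2⟩ := htreeD.exists_at (pD X) (min u (dist rt (pD X)))
    (le_min hu dist_nonneg) (min_le_right _ _)
  exact ⟨p, hp1, hp2⟩

lemma trunc_dist {p q a b : TD} {u v : ℝ} (hp : le rt p a) (hq : le rt q b)
    (hpu : dist rt p = min u (dist rt a)) (hqv : dist rt q = min v (dist rt b)) :
    dist p q ≤ |u - v| + dist a b := by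
  have h1 := htreeD.hyp p a q
  have h2 := htreeD.hyp a b q
  rw [hp] at h1
  rw [gp_comm b q, hq] at h2
  have hab : |dist rt a - dist rt b| ≤ dist a b := by
    rw [dist_comm rt a, dist_comm rt b]; exact abs_dist_sub_le _ _ _
  have hm : |dist rt p - dist rt q| ≤ max |u - v| (dist a b) := by
    rw [hpu, hqv]
    exact (abs_min_sub_min_le_max _ _ _ _).trans (max_le_max le_rfl hab)
  have hmax : max |u - v| (dist a b) ≤ |u - v| + dist a b :=
    max_le (by linarith [dist_nonneg (x := a) (y := b)]) (by linarith [abs_nonneg (u - v)])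
  have ha := le_norm hp
  have hb := le_norm hq
  have e1 := dist_eq (o := rt) p q
  have e2 := dist_eq (o := rt) a b
  rw [min_le_iff] at h1 h2
  have h3 := abs_le.1 (hm.trans hmax)
  rcases h1 with h1 | h1
  · linarith [h3.1, h3.2]
  · rcases h2 with h2 | h2
    · have := abs_nonneg (u - v)
      linarith
    · linarith [h3.1, h3.2]

instance : CompactSpace TD := by
  classical
  have hex := fun (z : (ℕ → Bool) × (Set.Icc (0:ℝ) 1)) => exists_trunc z.1 z.2.1 z.2.2.1
  choose Φ hΦ1 hΦ2 using hex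
  have hcont : Continuous Φ := by
    rw [continuous_iff_continuousAt]
    intro z
    rw [ContinuousAt, tendsto_iff_dist_tendsto_zero]
    have hb : ∀ w, dist (Φ w) (Φ z) ≤ |w.2.1 - z.2.1| + dist (pD w.1) (pD z.1) := fun w =>
      trunc_dist (hΦ1 w) (hΦ1 z) (hΦ2 w) (hΦ2 z)
    have hlim : Filter.Tendsto (fun w : (ℕ → Bool) × (Set.Icc (0:ℝ) 1) =>
        |w.2.1 - z.2.1| + dist (pD w.1) (pD z.1)) (nhds z) (nhds 0) := by
      have hc : Continuous (fun w : (ℕ → Bool) × (Set.Icc (0:ℝ) 1) =>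
          |w.2.1 - z.2.1| + dist (pD w.1) (pD z.1)) := by
        have := pD_continuous
        fun_prop
      have := hc.tendsto z
      simpa using this
    exact squeeze_zero (fun _ => dist_nonneg) hb hlim
  have hsurj : Set.range Φ = Set.univ := by
    rw [Set.eq_univ_iff_forall]
    intro x
    obtain ⟨X, hX⟩ := le_pD x
    have h1 : dist rt x ≤ dist rt (pD X) := le_norm hX
    have h2 : dist rt x ∈ Set.Icc (0:ℝ) 1 := ⟨dist_nonneg, h1.trans (pD_norm X)⟩
    refine ⟨(X, ⟨dist rt x, h2⟩), ?_⟩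
    have h3 := hΦ1 (X, ⟨dist rt x, h2⟩)
    have h4 := hΦ2 (X, ⟨dist rt x, h2⟩)
    have h5 : dist rt (Φ (X, ⟨dist rt x, h2⟩)) = dist rt x := by
      rw [h4]; exact min_eq_left h1
    have h6 : le rt (Φ (X, ⟨dist rt x, h2⟩)) x := htreeD.le_of_norm_le h3 hX h5.le
    exact eq_of_le_of_norm h6 h5.ge
  rw [← isCompact_univ_iff, ← hsurj]
  exact isCompact_range hcont

/-- cylinders are compact -/
lemma cyl_compact (n : ℕ) (A : Finset ℕ) :
    IsCompact {x : TD | ∃ X : ℕ → Bool, (∀ j < n, X j = chr A j) ∧ pD X = x} := by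
  have hcl : IsClosed {X : ℕ → Bool | ∀ j < n, X j = chr A j} := by
    have : {X : ℕ → Bool | ∀ j < n, X j = chr A j} = ⋂ j, ⋂ (_ : j < n), {X | X j = chr A j} := by
      ext X; simp
    rw [this]
    apply isClosed_iInter
    intro j
    apply isClosed_iInter
    intro _
    exact isClosed_eq (continuous_apply j) continuous_const
  have h := hcl.isCompact.image pD_continuous
  exact h

end Pool.Agent.R272.RT
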