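import Pool.Agent.R272.RT.Hyp
import Pool.Agent.R272.RT.Defs

/-!
# Condition (a) for sums of non overlapping segments
-/

set_option autoImplicit false

noncomputable section

namespace Pool.Agent.R272.RT

open Pool.Agent.H266R3.LF

variable {T : Type} [MetricSpace T] {o : T}

@[simp] lemma inc_dl (x : T) (f : Lip0 T o) : inc T o (dl o x) f = f.fn x := rfl

lemma inc_mol (x y : T) (f : Lip0 T o) :
    inc T o (mol o x y) f = (dist x y)⁻¹ * (f.fn x - f.fn y) := by
  unfold mol
  rw [map_smul, map_sub, smul_apply, sub_apply, inc_dl, inc_dl, smul_eq_mul]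

lemma norm_dl_sub_le (x y : T) : ‖dl o x - dl o y‖ ≤ dist x y := by
  rw [← norm_inc, map_sub]
  exact norm_dlt_sub_le x y

lemma exists_norming (γ : FreeSp T o) (η : ℝ) (hη : 0 < η) :
    ∃ φ : Lip0 T o, ‖φ‖ ≤ 1 ∧ ‖γ‖ - η ≤ inc T o γ φ := by
  rw [← norm_inc]
  obtain ⟨φ, hφ1, hφ2⟩ := ContinuousLinearMap.exists_lt_apply_of_lt_opNorm (inc T o γ)
    (show ‖inc T o γ‖ - η < ‖inc T o γ‖ by linarith)
  rw [Real.norm_eq_abs] at hφ2
  rcases abs_cases (inc T o γ φ) with ⟨h1, _⟩ | ⟨h1, _⟩
  · exact ⟨φ, hφ1.le, by linarith⟩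
  · exact ⟨-φ, by rw [norm_neg]; exact hφ1.le, by rw [map_neg]; linarith⟩

lemma lip_of_norm (φ : Lip0 T o) (hφ : ‖φ‖ ≤ 1) (x y : T) : |φ.fn x - φ.fn y| ≤ dist x y := by
  refine (φ.abs_sub_le x y).trans ?_
  calc ‖φ‖ * dist x y ≤ 1 * dist x y := by gcongr
    _ = _ := one_mul _

/-- The key estimate. -/
theorem cond_a_core (h : HTree T o) {n : ℕ} (a : Fin n → ℝ) (x y : Fin n → T)
    (hxy : ∀ i, x i ≠ y i)
    (hconv : ‖∑ i, a i • mol o (x i) (y i)‖ = ∑ i, |a i|) (I : Finset (Fin n))
    {ι : Type} (J : Finset ι) (p q : ι → T)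
    (hpq : ∀ j ∈ J, le o (p j) (q j))
    (hJ : ∀ j ∈ J, ∀ j' ∈ J, j ≠ j' → gp o (q j) (q j') ≤ dist o (p j)) :
    ∑ i ∈ I, |a i| ≤ ∑ i ∈ I, dist (x i) (y i) +
      ‖∑ i, a i • mol o (x i) (y i) - ∑ j ∈ J, (dl o (q j) - dl o (p j))‖ := by
  classical
  set γ : FreeSp T o := ∑ i, a i • mol o (x i) (y i) with hγ
  set f : FreeSp T o := ∑ j ∈ J, (dl o (q j) - dl o (p j)) with hf
  apply le_of_forall_pos_le_add
  intro η hη
  obtain ⟨φ, hφ1, hφ2⟩ := exists_norming γ η hη
  obtain ⟨V, P, C, hFV, hoV, hC, htel, hP, hmeet⟩ := h.exists_subtree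
    ((Finset.univ.image x) ∪ (Finset.univ.image y) ∪ (J.image p) ∪ (J.image q))
  have hxV : ∀ i, x i ∈ V := fun i => hFV (by simp)
  have hyV : ∀ i, y i ∈ V := fun i => hFV (by simp)
  have hpV : ∀ j ∈ J, p j ∈ V := fun j hj => hFV (by
    simp only [Finset.mem_union, Finset.mem_image]
    exact Or.inl (Or.inr ⟨j, hj, rfl⟩))
  have hqV : ∀ j ∈ J, q j ∈ V := fun j hj => hFV (by
    simp only [Finset.mem_union, Finset.mem_image]
    exact Or.inr ⟨j, hj, rfl⟩)
  -- incidence
  let VV : Finset T := V.erase o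
  have hCV : ∀ v, C v ⊆ VV := by
    intro v w hw
    rw [hC] at hw
    exact Finset.mem_erase.2 ⟨hw.2.1, hw.1⟩
  let χ : T → T → ℝ := fun v w => if w ∈ C v then 1 else 0
  let σ : T → T → T → ℝ := fun u v w => χ u w - χ v w
  let e : T → ℝ := fun w => dist (P w) w
  let D : T → ℝ := fun w => φ.fn w - φ.fn (P w)
  have he0 : ∀ w, 0 ≤ e w := fun w => dist_nonneg
  have hDe : ∀ w, |D w| ≤ e w := by
    intro w
    have := lip_of_norm φ hφ1 w (P w)
    rw [dist_comm] at this
    exact this
  have hsumχ : ∀ (v : T) (g : T → ℝ), ∑ w ∈ VV, χ v w * g w = ∑ w ∈ C v, g w := by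
    intro v g
    simp only [χ, ite_mul, one_mul, zero_mul]
    rw [← Finset.sum_filter]
    congr 1
    ext w
    rw [Finset.mem_filter]
    exact ⟨fun hw => hw.2, fun hw => ⟨hCV v hw, hw⟩⟩
  have he : ∀ v ∈ V, ∑ w ∈ VV, χ v w * e w = dist o v := by
    intro v hv
    rw [hsumχ]
    have h1 := htel v hv (fun z => dist o z)
    simp only [dist_self, sub_zero] at h1
    rw [h1]
    apply Finset.sum_congr rfl
    intro w hw
    rw [hC] at hw
    exact hP w hw.1 hw.2.1
  have hdist : ∀ u ∈ V, ∀ v ∈ V, ∑ w ∈ VV, |σ u v w| * e w = dist u v := by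
    intro u hu v hv
    obtain ⟨m, hm, hm1, hm2⟩ := hmeet u hu v hv
    have h1 : ∀ w ∈ VV, |σ u v w| * e w = χ u w * e w + χ v w * e w - 2 * (χ m w * e w) := by
      intro w _
      have hmw : χ m w = χ u w * χ v w := by
        simp only [χ]
        by_cases hu' : w ∈ C u <;> by_cases hv' : w ∈ C v <;> simp [hm2 w, hu', hv']
      rw [hmw]
      simp only [σ, χ]
      split_ifs <;> norm_num
      · ring
    rw [Finset.sum_congr rfl h1, Finset.sum_sub_distrib, Finset.sum_add_distrib, he u hu, he v hv,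
      ← Finset.mul_sum, he m hm, hm1, dist_eq (o := o) u v]
  have hφsum : ∀ u ∈ V, ∀ v ∈ V, φ.fn u - φ.fn v = ∑ w ∈ VV, σ u v w * D w := by
    intro u hu v hv
    simp only [σ, sub_mul]
    rw [Finset.sum_sub_distrib, hsumχ, hsumχ]
    have h1 := htel u hu φ.fn
    have h2 := htel v hv φ.fn
    simp only [D]
    linarith
  -- the edges of the segments in `I`
  let E : Finset T := VV.filter (fun w => ∃ i ∈ I, σ (x i) (y i) w ≠ 0)
  let ψ : T → ℝ := fun v => ∑ w ∈ E, χ v w * D w
  have hψsub : ∀ u v, ψ u - ψ v = ∑ w ∈ E, σ u v w * D w := by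
    intro u v
    simp only [ψ, σ, sub_mul]
    rw [Finset.sum_sub_distrib]
  have hψabs : ∀ u v, |ψ u - ψ v| ≤ ∑ w ∈ E, |σ u v w| * e w := by
    intro u v
    rw [hψsub]
    refine (Finset.abs_sum_le_sum_abs _ _).trans ?_
    apply Finset.sum_le_sum
    intro w _
    rw [abs_mul]
    exact mul_le_mul_of_nonneg_left (hDe w) (abs_nonneg _)
  have hE_le : ∀ u v, ∑ w ∈ E, |σ u v w| * e w ≤ ∑ w ∈ VV, |σ u v w| * e w := by
    intro u v
    apply Finset.sum_le_sum_of_subset_of_nonneg (Finset.filter_subset _ _)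
    intro w _ _
    exact mul_nonneg (abs_nonneg _) (he0 w)
  have hψlip : LipschitzOnWith 1 ψ (V : Set T) := by
    apply LipschitzOnWith.of_dist_le_mul
    intro u hu v hv
    rw [Real.dist_eq, NNReal.coe_one, one_mul, ← hdist u hu v hv]
    exact (hψabs u v).trans (hE_le u v)
  obtain ⟨g, hg1, hg2⟩ := hψlip.extend_real
  have hψo : ψ o = 0 := by
    simp only [ψ]
    apply Finset.sum_eq_zero
    intro w _
    have : w ∉ C o := by
      intro hw
      rw [hC] at hw
      apply hw.2.1
      apply eq_of_le_of_norm hw.2.2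
      rw [dist_self]; exact dist_nonneg
    simp [χ, this]
  let Ψ : Lip0 T o := Lip0.mk g (by rw [← hg2 hoV]; exact hψo) 1 zero_le_one (by
    intro u v
    have := hg1.dist_le_mul u v
    rw [Real.dist_eq, NNReal.coe_one] at this
    exact this)
  have hΨ1 : ‖Ψ‖ ≤ 1 := by
    apply Lip0.norm_le' _ zero_le_one
    intro u v
    have := hg1.dist_le_mul u v
    rw [Real.dist_eq, NNReal.coe_one] at this
    exact this
  have hΨV : ∀ v ∈ V, Ψ.fn v = ψ v := fun v hv => (hg2 hv).symm
  -- pairing with `f`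
  have hfΨ : inc T o f Ψ ≤ ∑ i ∈ I, dist (x i) (y i) := by
    have h1 : inc T o f Ψ = ∑ j ∈ J, (ψ (q j) - ψ (p j)) := by
      rw [hf, map_sum, _root_.sum_apply]
      apply Finset.sum_congr rfl
      intro j hj
      rw [map_sub, sub_apply, inc_dl, inc_dl, hΨV _ (hqV j hj), hΨV _ (hpV j hj)]
    have h2 : ∑ j ∈ J, (ψ (q j) - ψ (p j)) ≤ ∑ j ∈ J, ∑ w ∈ E, |σ (q j) (p j) w| * e w :=
      Finset.sum_le_sum fun j _ => (le_abs_self _).trans (hψabs _ _)
    have h3 : ∑ j ∈ J, ∑ w ∈ E, |σ (q j) (p j) w| * e w ≤ ∑ w ∈ E, e w := by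
      rw [Finset.sum_comm]
      apply Finset.sum_le_sum
      intro w hw
      rw [← Finset.sum_mul]
      have hwo : w ∈ V ∧ w ≠ o := by
        have := Finset.filter_subset _ _ hw
        rw [Finset.mem_erase] at this
        exact ⟨this.2, this.1⟩
      have h4 : ∑ j ∈ J, |σ (q j) (p j) w| ≤ 1 := by
        -- at most one nonzero term, which is at most one
        have hle1 : ∀ j, |σ (q j) (p j) w| ≤ 1 := by
          intro j
          simp only [σ, χ]
          split_ifs <;> norm_num
        by_cases hex : ∃ j ∈ J, σ (q j) (p j) w ≠ 0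
        · obtain ⟨j, hj, hjw⟩ := hex
          rw [Finset.sum_eq_single_of_mem j hj]
          · exact hle1 j
          · intro j' hj' hne
            rw [abs_eq_zero]
            by_contra hj'w
            have hin : ∀ j ∈ J, σ (q j) (p j) w ≠ 0 → le o w (q j) ∧ ¬ le o w (p j) := by
              intro j hj hjw
              by_cases h5 : w ∈ C (p j)
              · exfalso
                have h6 : w ∈ C (q j) := by
                  rw [hC] at h5 ⊢
                  exact ⟨h5.1, h5.2.1, h.le_trans h5.2.2 (hpq j hj)⟩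
                apply hjw
                simp [σ, χ, h5, h6]
              · by_cases h6 : w ∈ C (q j)
                · refine ⟨((hC _ _).1 h6).2.2, ?_⟩
                  intro h7
                  exact h5 ((hC _ _).2 ⟨hwo.1, hwo.2, h7⟩)
                · exfalso
                  apply hjw
                  simp [σ, χ, h5, h6]
            obtain ⟨ha1, ha2⟩ := hin j hj hjw
            obtain ⟨hb1, _⟩ := hin j' hj' hj'w
            apply ha2
            apply h.le_of_norm_le ha1 (hpq j hj)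
            exact (h.norm_le_gp ha1 hb1).trans (hJ j hj j' hj' hne.symm)
        · push Not at hex
          rw [Finset.sum_eq_zero]
          · norm_num
          · intro j hj
            rw [hex j hj, abs_zero]
      calc (∑ j ∈ J, |σ (q j) (p j) w|) * e w ≤ 1 * e w :=
            mul_le_mul_of_nonneg_right h4 (he0 w)
        _ = e w := one_mul _
    have h4 : ∑ w ∈ E, e w ≤ ∑ i ∈ I, dist (x i) (y i) := by
      calc ∑ w ∈ E, e w ≤ ∑ w ∈ E, ∑ i ∈ I, |σ (x i) (y i) w| * e w := by
            apply Finset.sum_le_sum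
            intro w hw
            obtain ⟨i, hi, hiw⟩ := (Finset.mem_filter.1 hw).2
            have h5 : |σ (x i) (y i) w| = 1 := by
              revert hiw
              simp only [σ, χ]
              split_ifs <;> norm_num
            calc e w = |σ (x i) (y i) w| * e w := by rw [h5, one_mul]
              _ ≤ _ := Finset.single_le_sum (f := fun i => |σ (x i) (y i) w| * e w)
                  (fun i _ => mul_nonneg (abs_nonneg _) (he0 w)) hi
        _ = ∑ i ∈ I, ∑ w ∈ E, |σ (x i) (y i) w| * e w := Finset.sum_comm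
        _ ≤ ∑ i ∈ I, dist (x i) (y i) := by
            apply Finset.sum_le_sum
            intro i _
            rw [← hdist _ (hxV i) _ (hyV i)]
            exact hE_le _ _
    rw [h1]
    linarith
  -- pairing with `γ`
  have hγval : ∀ g : Lip0 T o, inc T o γ g
      = ∑ i, (a i * (dist (x i) (y i))⁻¹) * (g.fn (x i) - g.fn (y i)) := by
    intro g
    rw [hγ, map_sum, _root_.sum_apply]
    apply Finset.sum_congr rfl
    intro i _
    rw [map_smul, smul_apply, inc_mol, smul_eq_mul]
    ring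
  have hγΨ : ∑ i ∈ I, |a i| - η ≤ inc T o γ Ψ := by
    have hd : ∀ i, 0 < dist (x i) (y i) := fun i => dist_pos.2 (hxy i)
    have h1 : inc T o γ φ - ∑ i, |a i|
        = ∑ i, ∑ w ∈ VV, (dist (x i) (y i))⁻¹ * (a i * σ (x i) (y i) w * D w
          - |a i| * (|σ (x i) (y i) w| * e w)) := by
      rw [hγval, ← Finset.sum_sub_distrib]
      apply Finset.sum_congr rfl
      intro i _
      rw [← Finset.mul_sum, Finset.sum_sub_distrib, ← Finset.mul_sum,
        hdist _ (hxV i) _ (hyV i), hφsum _ (hxV i) _ (hyV i)]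
      simp_rw [mul_assoc]
      rw [← Finset.mul_sum]
      have := (hd i).ne'
      field_simp
    have hterm : ∀ i w, (dist (x i) (y i))⁻¹ * (a i * σ (x i) (y i) w * D w
          - |a i| * (|σ (x i) (y i) w| * e w)) ≤ 0 := by
      intro i w
      apply mul_nonpos_of_nonneg_of_nonpos (inv_nonneg.2 (hd i).le)
      have h2 : a i * σ (x i) (y i) w * D w ≤ |a i * σ (x i) (y i) w * D w| := le_abs_self _
      rw [abs_mul, abs_mul] at h2
      have h3 : |a i| * |σ (x i) (y i) w| * |D w| ≤ |a i| * |σ (x i) (y i) w| * e w :=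
        mul_le_mul_of_nonneg_left (hDe w) (by positivity)
      linarith
    have h2 : ∑ i, ∑ w ∈ VV, (dist (x i) (y i))⁻¹ * (a i * σ (x i) (y i) w * D w
          - |a i| * (|σ (x i) (y i) w| * e w))
        ≤ ∑ i, ∑ w ∈ E, (dist (x i) (y i))⁻¹ * (a i * σ (x i) (y i) w * D w
          - |a i| * (|σ (x i) (y i) w| * e w)) := by
      apply Finset.sum_le_sum
      intro i _
      rw [← Finset.sum_sdiff (Finset.filter_subset (fun w => ∃ i ∈ I, σ (x i) (y i) w ≠ 0) VV)]
      have : ∑ w ∈ VV \ Finset.filter (fun w => ∃ i ∈ I, σ (x i) (y i) w ≠ 0) VV,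
          (dist (x i) (y i))⁻¹ * (a i * σ (x i) (y i) w * D w
          - |a i| * (|σ (x i) (y i) w| * e w)) ≤ 0 :=
        Finset.sum_nonpos fun w _ => hterm i w
      linarith
    have h3 : inc T o γ Ψ = ∑ i, ∑ w ∈ E, (dist (x i) (y i))⁻¹ * (a i * σ (x i) (y i) w * D w) := by
      rw [hγval]
      apply Finset.sum_congr rfl
      intro i _
      rw [hΨV _ (hxV i), hΨV _ (hyV i), hψsub, Finset.mul_sum]
      apply Finset.sum_congr rfl
      intro w _
      ring
    have h4 : ∑ i, ∑ w ∈ E, (dist (x i) (y i))⁻¹ * (a i * σ (x i) (y i) w * D w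
          - |a i| * (|σ (x i) (y i) w| * e w))
        = inc T o γ Ψ - ∑ i, ∑ w ∈ E, (dist (x i) (y i))⁻¹ *
          (|a i| * (|σ (x i) (y i) w| * e w)) := by
      rw [h3, ← Finset.sum_sub_distrib]
      apply Finset.sum_congr rfl
      intro i _
      rw [← Finset.sum_sub_distrib]
      apply Finset.sum_congr rfl
      intro w _
      ring
    have h5 : ∑ i ∈ I, |a i| ≤ ∑ i, ∑ w ∈ E, (dist (x i) (y i))⁻¹ *
          (|a i| * (|σ (x i) (y i) w| * e w)) := by
      calc ∑ i ∈ I, |a i| ≤ ∑ i ∈ I, ∑ w ∈ E, (dist (x i) (y i))⁻¹ *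
          (|a i| * (|σ (x i) (y i) w| * e w)) := by
            apply Finset.sum_le_sum
            intro i hi
            have h6 : ∑ w ∈ E, |σ (x i) (y i) w| * e w = dist (x i) (y i) := by
              rw [← hdist _ (hxV i) _ (hyV i)]
              apply Finset.sum_subset (Finset.filter_subset _ _)
              intro w hw hwE
              have : σ (x i) (y i) w = 0 := by
                by_contra hne
                exact hwE (Finset.mem_filter.2 ⟨hw, i, hi, hne⟩)
              rw [this, abs_zero, zero_mul]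
            rw [← Finset.mul_sum, ← Finset.mul_sum, h6]
            have := (hd i).ne'
            apply le_of_eq
            field_simp
        _ ≤ _ := Finset.sum_le_sum_of_subset_of_nonneg (Finset.subset_univ _) (fun i _ _ =>
            Finset.sum_nonneg fun w _ => by
              have := he0 w
              have := (hd i).le
              positivity)
    have h7 : ∑ i, |a i| - η ≤ inc T o γ φ := by rw [← hconv]; exact hφ2
    linarith
  have hfin : inc T o (γ - f) Ψ ≤ ‖γ - f‖ := by
    calc inc T o (γ - f) Ψ ≤ ‖inc T o (γ - f) Ψ‖ := Real.le_norm_self _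
      _ ≤ ‖inc T o (γ - f)‖ * ‖Ψ‖ := (inc T o (γ - f)).le_opNorm Ψ
      _ ≤ ‖inc T o (γ - f)‖ * 1 := by gcongr
      _ = ‖γ - f‖ := by rw [mul_one, norm_inc]
  rw [map_sub, sub_apply] at hfin
  linarith

end Pool.Agent.R272.RT
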