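import Mathlib

/-!
# Pointed `0`-hyperbolic geodesic spaces: order, meets, finite subtrees
-/

set_option autoImplicit false

namespace Pool.Agent.R272.RT

variable {T : Type} [MetricSpace T]

/-- Gromov product at `o`. -/
noncomputable def gp (o x y : T) : ℝ := (dist o x + dist o y - dist x y) / 2

/-- tree order with root `o`: `x` lies on the segment from `o` to `y` -/
def le (o x y : T) : Prop := gp o x y = dist o x

/-- Pointed tree-like metric spaces. -/
structure HTree (T : Type) [MetricSpace T] (o : T) : Prop where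
  hyp : ∀ x y z : T, min (gp o x y) (gp o y z) ≤ gp o x z
  geo : ∀ x : T, ∀ u : ℝ, 0 ≤ u → u ≤ dist o x → ∃ y, dist o y = u ∧ dist y x = dist o x - u

section basic

variable {o : T}

lemma gp_comm (x y : T) : gp o x y = gp o y x := by
  unfold gp; rw [dist_comm x y]; ring

lemma gp_le_left (x y : T) : gp o x y ≤ dist o x := by
  unfold gp
  have := dist_triangle o x y
  linarith

lemma gp_le_right (x y : T) : gp o x y ≤ dist o y := by
  rw [gp_comm]; exact gp_le_left y x

lemma gp_nonneg (x y : T) : 0 ≤ gp o x y := by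
  unfold gp
  have := dist_triangle x o y
  rw [dist_comm x o] at this
  linarith

lemma gp_self (x : T) : gp o x x = dist o x := by
  unfold gp; rw [dist_self]; ring

lemma dist_eq (x y : T) : dist x y = dist o x + dist o y - 2 * gp o x y := by
  unfold gp; ring

lemma le_iff (x y : T) : le o x y ↔ dist x y = dist o y - dist o x := by
  unfold le gp
  constructor <;> intro h <;> linarith

lemma le_iff' (x y : T) : le o x y ↔ dist o x ≤ gp o x y :=
  ⟨fun h => h.ge, fun h => le_antisymm (gp_le_left x y) h⟩

lemma le_refl (x : T) : le o x x := gp_self x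

lemma o_le (x : T) : le o o x := by
  unfold le gp; rw [dist_self]; ring

lemma le_norm {x y : T} (h : le o x y) : dist o x ≤ dist o y := by
  rw [← h]; exact gp_le_right x y

lemma le_antisymm' {x y : T} (h1 : le o x y) (h2 : le o y x) : x = y := by
  have e1 := (le_iff x y).1 h1
  have e2 := (le_iff y x).1 h2
  rw [dist_comm] at e2
  have : dist x y = 0 := by
    have := dist_nonneg (x := x) (y := y)
    linarith
  exact dist_eq_zero.1 this

lemma eq_of_le_of_norm {x y : T} (h1 : le o x y) (h2 : dist o y ≤ dist o x) : x = y := by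
  have e1 := (le_iff x y).1 h1
  have := dist_nonneg (x := x) (y := y)
  exact dist_eq_zero.1 (by linarith)

end basic

namespace HTree

variable {o : T} (h : HTree T o)

include h

lemma le_trans {x y z : T} (h1 : le o x y) (h2 : le o y z) : le o x z := by
  rw [le_iff']
  refine _root_.le_trans ?_ (h.hyp x y z)
  rw [h1, h2]
  exact le_min le_rfl (le_norm h1)

/-- two points below `x` are comparable -/
lemma le_of_norm_le {x y z : T} (h1 : le o x z) (h2 : le o y z) (hn : dist o x ≤ dist o y) :
    le o x y := by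
  rw [le_iff']
  refine _root_.le_trans ?_ (h.hyp x z y)
  rw [h1, gp_comm z y, h2]
  exact le_min le_rfl hn

lemma exists_meet (x y : T) : ∃ m, le o m x ∧ le o m y ∧ dist o m = gp o x y := by
  obtain ⟨m, hm1, hm2⟩ := h.geo x (gp o x y) (gp_nonneg x y) (gp_le_left x y)
  have hmx : le o m x := by rw [le_iff, hm2, hm1]
  refine ⟨m, hmx, ?_, hm1⟩
  rw [le_iff']
  refine _root_.le_trans ?_ (h.hyp m x y)
  rw [hmx, hm1]
  exact le_min le_rfl le_rfl

lemma norm_le_gp {x y z : T} (h1 : le o z x) (h2 : le o z y) : dist o z ≤ gp o x y := by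
  refine _root_.le_trans ?_ (h.hyp x z y)
  rw [h2, gp_comm x z, h1]
  exact le_min le_rfl le_rfl

/-- the meet of two points -/
noncomputable def meet (x y : T) : T := (h.exists_meet x y).choose

lemma meet_left (x y : T) : le o (h.meet x y) x := (h.exists_meet x y).choose_spec.1
lemma meet_right (x y : T) : le o (h.meet x y) y := (h.exists_meet x y).choose_spec.2.1
lemma meet_norm (x y : T) : dist o (h.meet x y) = gp o x y :=
  (h.exists_meet x y).choose_spec.2.2

lemma le_meet {x y z : T} (h1 : le o z x) (h2 : le o z y) : le o z (h.meet x y) :=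
  h.le_of_norm_le h1 (h.meet_left x y) (by rw [h.meet_norm]; exact h.norm_le_gp h1 h2)

/-- the semilattice -/
@[reducible] noncomputable def semi : SemilatticeInf T where
  le x y := RT.le o x y
  le_refl x := RT.le_refl x
  le_trans x y z h1 h2 := h.le_trans h1 h2
  le_antisymm x y h1 h2 := le_antisymm' h1 h2
  inf := h.meet
  inf_le_left := h.meet_left
  inf_le_right := h.meet_right
  le_inf x y z h1 h2 := h.le_meet h1 h2

/-- finite sets are contained in finite meet closed sets -/
lemma exists_closed (F : Finset T) : ∃ V : Finset T, F ⊆ V ∧ o ∈ V ∧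
    ∀ x ∈ V, ∀ y ∈ V, h.meet x y ∈ V := by
  classical
  let _ := h.semi
  have hfin : (infClosure ((insert o F : Finset T) : Set T)).Finite :=
    (Finset.finite_toSet _).infClosure
  refine ⟨hfin.toFinset, ?_, ?_, ?_⟩
  · intro x hx
    rw [Set.Finite.mem_toFinset]
    apply subset_infClosure
    rw [Finset.mem_coe]
    exact Finset.mem_insert_of_mem hx
  · rw [Set.Finite.mem_toFinset]
    apply subset_infClosure
    rw [Finset.mem_coe]
    exact Finset.mem_insert_self _ _
  · intro x hx y hy
    rw [Set.Finite.mem_toFinset] at hx hy ⊢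
    exact infClosed_infClosure hx hy

/-- predecessors in a finite set -/
lemma exists_pred (V : Finset T) (hV : o ∈ V) (w : T) (hwo : w ≠ o) :
    ∃ p ∈ V, le o p w ∧ p ≠ w ∧ ∀ u ∈ V, le o u w → u ≠ w → le o u p := by
  classical
  have hne : (V.filter (fun u => le o u w ∧ u ≠ w)).Nonempty :=
    ⟨o, Finset.mem_filter.2 ⟨hV, o_le w, hwo.symm⟩⟩
  obtain ⟨p, hp, hmax⟩ := Finset.exists_max_image _ (fun u => dist o u) hne
  rw [Finset.mem_filter] at hp
  refine ⟨p, hp.1, hp.2.1, hp.2.2, ?_⟩
  intro u hu huw hne'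
  exact h.le_of_norm_le huw hp.2.1 (hmax u (Finset.mem_filter.2 ⟨hu, huw, hne'⟩))

/-- Finite subtree data: a finite set `V` with predecessor function `P`, and incidence sets. -/
lemma exists_subtree (F : Finset T) : ∃ (V : Finset T) (P : T → T) (C : T → Finset T),
    F ⊆ V ∧ o ∈ V ∧
    (∀ v, ∀ w, w ∈ C v ↔ w ∈ V ∧ w ≠ o ∧ le o w v) ∧
    (∀ v ∈ V, ∀ φ : T → ℝ, φ v - φ o = ∑ w ∈ C v, (φ w - φ (P w))) ∧
    (∀ w ∈ V, w ≠ o → dist (P w) w = dist o w - dist o (P w)) ∧
    (∀ x ∈ V, ∀ y ∈ V, ∃ m ∈ V, dist o m = gp o x y ∧ ∀ w, w ∈ C m ↔ w ∈ C x ∧ w ∈ C y) := by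
  classical
  obtain ⟨V, hFV, hoV, hmeet⟩ := h.exists_closed F
  have hpred := fun (w : T) (hw : w ≠ o) => h.exists_pred V hoV w hw
  choose P hP1 hP2 hP3 hP4 using hpred
  let P' : T → T := fun w => if hw : w ≠ o then P w hw else o
  have hP' : ∀ w (hw : w ≠ o), P' w = P w hw := fun w hw => by simp only [P']; rw [dif_pos hw]
  let C : T → Finset T := fun v => V.filter (fun w => w ≠ o ∧ le o w v)
  have hC : ∀ v, ∀ w, w ∈ C v ↔ w ∈ V ∧ w ≠ o ∧ le o w v := fun v w => by
    simp only [C, Finset.mem_filter]
  refine ⟨V, P', C, hFV, hoV, hC, ?_, ?_, ?_⟩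
  · intro v hv φ
    induction hn : (C v).card using Nat.strong_induction_on generalizing v with
    | _ n ih =>
      by_cases hvo : v = o
      · have : C v = ∅ := by
          rw [Finset.eq_empty_iff_forall_notMem]
          intro w hw
          rw [hC, hvo] at hw
          apply hw.2.1
          apply eq_of_le_of_norm hw.2.2
          rw [dist_self]; exact dist_nonneg
        rw [this, hvo]; simp
      · have hvC : v ∈ C v := (hC v v).2 ⟨hv, hvo, RT.le_refl v⟩
        have hCins : C v = insert v (C (P v hvo)) := by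
          ext w
          rw [Finset.mem_insert, hC, hC]
          constructor
          · rintro ⟨h1, h2, h3⟩
            by_cases hwv : w = v
            · exact Or.inl hwv
            · exact Or.inr ⟨h1, h2, hP4 v hvo w h1 h3 hwv⟩
          · rintro (rfl | ⟨h1, h2, h3⟩)
            · exact ⟨hv, hvo, RT.le_refl _⟩
            · exact ⟨h1, h2, h.le_trans h3 (hP2 v hvo)⟩
        have hnot : v ∉ C (P v hvo) := by
          intro hcon
          rw [hC] at hcon
          exact hP3 v hvo (le_antisymm' (hP2 v hvo) hcon.2.2)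
        have hcard : (C (P v hvo)).card < n := by
          rw [← hn, hCins, Finset.card_insert_of_notMem hnot]; omega
        have := ih _ hcard (P v hvo) (hP1 v hvo) rfl
        rw [hCins, Finset.sum_insert hnot, ← this, hP' v hvo]
        ring
  · intro w _ hwo
    rw [hP' w hwo]
    exact (le_iff _ _).1 (hP2 w hwo)
  · intro x hx y hy
    refine ⟨h.meet x y, hmeet x hx y hy, h.meet_norm x y, ?_⟩
    intro w
    rw [hC, hC, hC]
    constructor
    · rintro ⟨h1, h2, h3⟩
      exact ⟨⟨h1, h2, h.le_trans h3 (h.meet_left x y)⟩, ⟨h1, h2, h.le_trans h3 (h.meet_right x y)⟩⟩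
    · rintro ⟨⟨h1, h2, h3⟩, ⟨_, _, h4⟩⟩
      exact ⟨h1, h2, h.le_meet h3 h4⟩

end HTree

end Pool.Agent.R272.RT
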