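import Pool.Agent.R272.RT.Cmp
import Pool.Agent.R272.RT.CondA

/-!
# Uniform regularity and failure of weak compactness
-/

set_option autoImplicit false

noncomputable section

namespace Pool.Agent.R272.RT

open Finset
open Pool.Agent.H266R3.LF

/-- The elements `f k`. -/
def ff (k : ℕ) : FreeSp TD rt :=
  ∑ A ∈ (range k).powerset, (dl rt (pD (chr (insert k A))) - dl rt (pD (chr A)))

lemma pD_insert_dist {A : Finset ℕ} {k : ℕ} (hA : A ⊆ range k) :
    dist (pD (chr (insert k A))) (pD (chr A)) = (1 / 2 : ℝ) ^ (k + 1) := ptF_dist hA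

lemma ff_norm (k : ℕ) : ‖ff k‖ ≤ 1 / 2 := by
  unfold ff
  calc _ ≤ ∑ A ∈ (range k).powerset, ‖dl rt (pD (chr (insert k A))) - dl rt (pD (chr A))‖ :=
        norm_sum_le _ _
    _ ≤ ∑ A ∈ (range k).powerset, (1 / 2 : ℝ) ^ (k + 1) := by
        apply Finset.sum_le_sum
        intro A hA
        rw [mem_powerset] at hA
        rw [← pD_insert_dist hA]
        exact norm_dl_sub_le _ _
    _ = 1 / 2 := by
        rw [sum_const, card_powerset, card_range, nsmul_eq_mul]
        push_cast
        rw [pow_succ, ← mul_assoc, ← mul_pow]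
        norm_num

lemma chr_agree_inter (A : Finset ℕ) (n j : ℕ) (hj : j < n) : chr (A ∩ range n) j = chr A j := by
  unfold chr
  simp [hj]

/-- count of good sets -/
lemma count_aux (good : ℕ → Finset ℕ → Prop) (n0 : ℕ) (r : ℕ) :
    open Classical in
    ∑ A ∈ (range (n0 + r)).powerset, (if good n0 (A ∩ range n0) then (1:ℝ) else 0)
      = 2 ^ r * ∑ A ∈ (range n0).powerset, (if good n0 A then (1:ℝ) else 0) := by
  classical
  induction r with
  | zero =>
    rw [add_zero, pow_zero, one_mul]
    apply Finset.sum_congr rfl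
    intro A hA
    rw [mem_powerset] at hA
    rw [inter_eq_left.2 hA]
  | succ r ih =>
    rw [← add_assoc, range_add_one, sum_powerset_insert notMem_range_self, pow_succ, mul_assoc,
      mul_left_comm]
    have h2 : ∑ t ∈ (range (n0 + r)).powerset,
        (if good n0 ((insert (n0 + r) t) ∩ range n0) then (1:ℝ) else 0)
        = ∑ t ∈ (range (n0 + r)).powerset, (if good n0 (t ∩ range n0) then (1:ℝ) else 0) := by
      apply Finset.sum_congr rfl
      intro t _
      rw [insert_inter_of_notMem (by simp)]
    rw [h2, ih]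
    ring

theorem uniformlyRegular : UniformlyRegular rt (Set.range ff) := by
  classical
  intro U hU ε hε
  -- good cylinders
  let good : ℕ → Finset ℕ → Prop := fun n A => ∀ X : ℕ → Bool, (∀ j < n, X j = chr A j) → pD X ∈ U
  let c : ℕ → ℝ := fun n => ∑ A ∈ (range n).powerset, (if good n A then (1:ℝ) else 0)
  have hmono : ∀ n m (A : Finset ℕ), n ≤ m → good n (A ∩ range n) → good m A := by
    intro n m A hnm hg X hX
    apply hg
    intro j hj
    rw [chr_agree_inter A n j hj]
    exact hX j (lt_of_lt_of_le hj hnm)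
  have hc1 : ∀ n r, 2 ^ r * c n ≤ c (n + r) := by
    intro n r
    simp only [c]
    rw [← count_aux good n r]
    apply Finset.sum_le_sum
    intro A _
    by_cases h1 : good n (A ∩ range n)
    · rw [if_pos h1, if_pos (hmono n (n + r) A (Nat.le_add_right _ _) h1)]
    · rw [if_neg h1]; split_ifs <;> norm_num
  have hc0 : ∀ n, c n ≤ 2 ^ n := by
    intro n
    calc c n ≤ ∑ A ∈ (range n).powerset, (1:ℝ) := by
          apply Finset.sum_le_sum
          intro A _
          split_ifs <;> norm_num
      _ = 2 ^ n := by rw [sum_const, card_powerset, card_range, nsmul_eq_mul]; push_cast; ring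
  let g : ℕ → ℝ := fun n => c n * (1 / 2) ^ n
  have hg1 : ∀ n, g n ≤ 1 := by
    intro n
    calc c n * (1 / 2) ^ n ≤ 2 ^ n * (1 / 2) ^ n := by
          apply mul_le_mul_of_nonneg_right (hc0 n) (by positivity)
      _ = 1 := by rw [← mul_pow]; norm_num
  obtain ⟨r, hr⟩ := exists_pow_lt_of_lt_one (show (0:ℝ) < ε / 6 by positivity)
    (show (1 / 2 : ℝ) < 1 by norm_num)
  set η : ℝ := ε / 3 * (1 / 2) ^ r with hη
  have hη0 : 0 < η := by positivity
  obtain ⟨n0, hn0⟩ : ∃ n0, ∀ n, g n ≤ g n0 + η := by
    have hbdd : BddAbove (Set.range g) := ⟨1, by rintro _ ⟨n, rfl⟩; exact hg1 n⟩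
    have hne : (Set.range g).Nonempty := ⟨g 0, 0, rfl⟩
    obtain ⟨_, ⟨n0, rfl⟩, hn0⟩ := exists_lt_of_lt_csSup hne
      (show sSup (Set.range g) - η < sSup (Set.range g) by linarith)
    exact ⟨n0, fun n => by
      have := le_csSup hbdd ⟨n, rfl⟩
      linarith⟩
  -- the count of good sets outside of the good cylinders of level `n0`
  have hN : ∀ r, ∑ A ∈ (range (n0 + r)).powerset,
      (if ¬ good n0 (A ∩ range n0) ∧ good (n0 + r) A then (1:ℝ) else 0) ≤ 2 ^ (n0 + r) * η := by
    intro r
    have h1 : ∑ A ∈ (range (n0 + r)).powerset,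
        (if ¬ good n0 (A ∩ range n0) ∧ good (n0 + r) A then (1:ℝ) else 0)
        = c (n0 + r) - 2 ^ r * c n0 := by
      simp only [c]
      rw [← count_aux good n0 r, ← Finset.sum_sub_distrib]
      apply Finset.sum_congr rfl
      intro A _
      by_cases h1 : good n0 (A ∩ range n0)
      · have h2 := hmono n0 (n0 + r) A (Nat.le_add_right _ _) h1
        simp [h1, h2]
      · by_cases h2 : good (n0 + r) A <;> simp [h1, h2]
    rw [h1]
    have h2 := hn0 (n0 + r)
    simp only [g] at h2
    have h3 : c (n0 + r) = 2 ^ (n0 + r) * (c (n0 + r) * (1 / 2) ^ (n0 + r)) := by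
      rw [mul_left_comm, ← mul_pow]; norm_num
    have h4 : 2 ^ r * c n0 = 2 ^ (n0 + r) * (c n0 * (1 / 2) ^ n0) := by
      rw [mul_left_comm, pow_add, mul_right_comm, ← mul_pow]; norm_num
      ring
    rw [h3, h4, ← mul_sub]
    apply mul_le_mul_of_nonneg_left _ (by positivity)
    linarith
  -- the compact set
  let K1 : Set TD := ⋃ A ∈ (range n0).powerset.filter (fun A => good n0 A),
    {x : TD | ∃ X : ℕ → Bool, (∀ j < n0, X j = chr A j) ∧ pD X = x}
  let K2 : Set TD := {x : TD | x ∈ U ∧ ∃ A ∈ (range (n0 + 1)).powerset, x = pD (chr A)}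
  have hK1 : IsCompact K1 := by
    apply Finset.isCompact_biUnion
    intro A _
    exact cyl_compact n0 A
  have hK2 : IsCompact K2 := by
    apply Set.Finite.isCompact
    apply Set.Finite.subset (((range (n0 + 1)).powerset.image (fun A => pD (chr A))).finite_toSet)
    rintro x ⟨_, A, hA, rfl⟩
    rw [Finset.mem_coe, Finset.mem_image]
    exact ⟨A, hA, rfl⟩
  have hK1U : K1 ⊆ U := by
    intro x hx
    simp only [K1, Set.mem_iUnion] at hx
    obtain ⟨A, hA, X, hX, rfl⟩ := hx
    exact (Finset.mem_filter.1 hA).2 X hX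
  have hK2U : K2 ⊆ U := fun x hx => hx.1
  refine ⟨K1 ∪ K2, hK1.union hK2, Set.union_subset hK1U hK2U, ?_⟩
  set Q : Set TD := K1 ∪ K2 ∪ Uᶜ with hQ
  have hdlQ : ∀ x ∈ Q, dl rt x ∈ FA rt Q := fun x hx =>
    Submodule.le_topologicalClosure _ (Submodule.subset_span ⟨x, hx, rfl⟩)
  rintro _ ⟨k, rfl⟩
  by_cases hk : k < n0
  · -- low levels
    refine ⟨ff k, ?_, by rw [sub_self, norm_zero]; exact hε.le⟩
    unfold ff
    have hlow : ∀ A ∈ (range (n0 + 1)).powerset, pD (chr A) ∈ Q := by
      intro A hA
      by_cases h1 : pD (chr A) ∈ U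
      · exact Or.inl (Or.inr ⟨h1, A, hA, rfl⟩)
      · exact Or.inr h1
    apply Submodule.sum_mem
    intro A hA
    rw [mem_powerset] at hA
    apply Submodule.sub_mem
    · apply hdlQ
      apply hlow
      rw [mem_powerset]
      intro j hj
      rw [mem_insert] at hj
      rw [mem_range]
      rcases hj with h | h
      · omega
      · have := mem_range.1 (hA h); omega
    · apply hdlQ
      apply hlow
      rw [mem_powerset]
      intro j hj
      rw [mem_range]
      have := mem_range.1 (hA hj); omega
  · push Not at hk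
    obtain ⟨s, rfl⟩ : ∃ s, k = n0 + s := ⟨k - n0, by omega⟩
    set k := n0 + s with hkdef
    -- approximations of the summands
    have happ : ∀ A ∈ (range k).powerset, ∃ v ∈ FA rt Q,
        ‖(dl rt (pD (chr (insert k A))) - dl rt (pD (chr A))) - v‖ ≤
          (if ¬ good n0 (A ∩ range n0) ∧ good (n0 + (s + r)) A then (1:ℝ) else 0)
            * (1 / 2) ^ (k + 1)
          + (if ¬ good n0 ((insert k A) ∩ range n0) ∧ good (n0 + (s + 1 + r)) (insert k A)
            then (1:ℝ) else 0) * (1 / 2) ^ (k + 1)
          + 3 * (1 / 2) ^ r * (1 / 2) ^ k := by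
      intro A hA
      rw [mem_powerset] at hA
      have hins : (insert k A) ∩ range n0 = A ∩ range n0 :=
        insert_inter_of_notMem (by rw [mem_range]; omega)
      have hI1 : 0 ≤ (if ¬ good n0 (A ∩ range n0) ∧ good (n0 + (s + r)) A then (1:ℝ) else 0) := by
        split_ifs <;> norm_num
      have hI2 : 0 ≤ (if ¬ good n0 ((insert k A) ∩ range n0) ∧
          good (n0 + (s + 1 + r)) (insert k A) then (1:ℝ) else 0) := by
        split_ifs <;> norm_num
      by_cases h0 : good n0 (A ∩ range n0)
      · refine ⟨dl rt (pD (chr (insert k A))) - dl rt (pD (chr A)), ?_, ?_⟩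
        · have hmemF : A ∩ range n0 ∈ (range n0).powerset.filter (fun A => good n0 A) :=
            Finset.mem_filter.2 ⟨mem_powerset.2 inter_subset_right, h0⟩
          apply Submodule.sub_mem
          · apply hdlQ
            refine Or.inl (Or.inl ?_)
            simp only [K1, Set.mem_iUnion]
            refine ⟨A ∩ range n0, hmemF, chr (insert k A), ?_, rfl⟩
            intro j hj
            rw [← hins, chr_agree_inter _ _ _ hj]
          · apply hdlQ
            refine Or.inl (Or.inl ?_)
            simp only [K1, Set.mem_iUnion]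
            refine ⟨A ∩ range n0, hmemF, chr A, ?_, rfl⟩
            intro j hj
            rw [chr_agree_inter _ _ _ hj]
        · rw [sub_self, norm_zero]; positivity
      · by_cases h1 : good (n0 + (s + r)) A
        · refine ⟨0, Submodule.zero_mem _, ?_⟩
          rw [if_pos ⟨h0, h1⟩, sub_zero]
          have h2 := norm_dl_sub_le (o := rt) (pD (chr (insert k A))) (pD (chr A))
          rw [pD_insert_dist hA] at h2
          refine h2.trans ?_
          have h3 : 0 ≤ (if ¬ good n0 ((insert k A) ∩ range n0) ∧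
              good (n0 + (s + 1 + r)) (insert k A) then (1:ℝ) else 0) * (1 / 2) ^ (k + 1)
              + 3 * (1 / 2) ^ r * (1 / 2) ^ k := by positivity
          linarith
        · by_cases h2 : good (n0 + (s + 1 + r)) (insert k A)
          · refine ⟨0, Submodule.zero_mem _, ?_⟩
            have hcond : ¬ good n0 ((insert k A) ∩ range n0) ∧
                good (n0 + (s + 1 + r)) (insert k A) := ⟨by rw [hins]; exact h0, h2⟩
            rw [if_pos hcond, sub_zero]
            have h3 := norm_dl_sub_le (o := rt) (pD (chr (insert k A))) (pD (chr A))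
            rw [pD_insert_dist hA] at h3
            refine h3.trans ?_
            have h4 : 0 ≤ (if ¬ good n0 (A ∩ range n0) ∧ good (n0 + (s + r)) A then (1:ℝ) else 0)
                * (1 / 2) ^ (k + 1) := by positivity
            have h5 : (0:ℝ) ≤ 3 * (1 / 2) ^ r * (1 / 2) ^ k := by positivity
            linarith
          · simp only [good] at h1 h2
            push Not at h1 h2
            obtain ⟨X, hX1, hX2⟩ := h1
            obtain ⟨Y, hY1, hY2⟩ := h2
            refine ⟨dl rt (pD Y) - dl rt (pD X), ?_, ?_⟩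
            · apply Submodule.sub_mem
              · exact hdlQ _ (Or.inr hY2)
              · exact hdlQ _ (Or.inr hX2)
            · have e1 : (dl rt (pD (chr (insert k A))) - dl rt (pD (chr A)))
                  - (dl rt (pD Y) - dl rt (pD X))
                  = (dl rt (pD (chr (insert k A))) - dl rt (pD Y))
                    - (dl rt (pD (chr A)) - dl rt (pD X)) := by abel
              rw [e1]
              have e2 := norm_dl_sub_le (o := rt) (pD (chr (insert k A))) (pD Y)
              have e3 := norm_dl_sub_le (o := rt) (pD (chr A)) (pD X)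
              have e4 := pD_dist (chr (insert k A)) Y _ (fun j hj => (hY1 j hj).symm)
              have e5 := pD_dist (chr A) X _ (fun j hj => (hX1 j hj).symm)
              have e6 : (1 / 2 : ℝ) ^ (n0 + (s + 1 + r)) = (1 / 2) * ((1 / 2) ^ r * (1 / 2) ^ k) := by
                rw [hkdef]; ring
              have e7 : (1 / 2 : ℝ) ^ (n0 + (s + r)) = (1 / 2) ^ r * (1 / 2) ^ k := by
                rw [hkdef]; ring
              rw [e6] at e4
              rw [e7] at e5
              refine (norm_sub_le _ _).trans ?_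
              have h3 : 0 ≤ (if ¬ good n0 (A ∩ range n0) ∧ good (n0 + (s + r)) A
                  then (1:ℝ) else 0) * (1 / 2) ^ (k + 1) := by positivity
              have h4 : 0 ≤ (if ¬ good n0 ((insert k A) ∩ range n0) ∧
                  good (n0 + (s + 1 + r)) (insert k A) then (1:ℝ) else 0)
                  * (1 / 2) ^ (k + 1) := by positivity
              linarith
    choose! v hv1 hv2 using happ
    refine ⟨∑ A ∈ (range k).powerset, v A, Submodule.sum_mem _ hv1, ?_⟩
    unfold ff
    rw [← Finset.sum_sub_distrib]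
    refine (norm_sum_le _ _).trans ((Finset.sum_le_sum hv2).trans ?_)
    rw [Finset.sum_add_distrib, Finset.sum_add_distrib, ← Finset.sum_mul, ← Finset.sum_mul,
      sum_const, card_powerset, card_range, nsmul_eq_mul]
    have hs1 : ∑ A ∈ (range k).powerset,
        (if ¬ good n0 (A ∩ range n0) ∧ good (n0 + (s + r)) A then (1:ℝ) else 0)
        ≤ 2 ^ (n0 + (s + r)) * η := by
      refine le_trans ?_ (hN (s + r))
      apply Finset.sum_le_sum_of_subset_of_nonneg
      · apply powerset_mono.2
        apply range_mono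
        omega
      · intro A _ _
        split_ifs <;> norm_num
    have hs2 : ∑ A ∈ (range k).powerset,
        (if ¬ good n0 ((insert k A) ∩ range n0) ∧ good (n0 + (s + 1 + r)) (insert k A)
          then (1:ℝ) else 0) ≤ 2 ^ (n0 + (s + 1 + r)) * η := by
      refine le_trans ?_ (hN (s + 1 + r))
      have h1 : ∑ B ∈ (range (k + 1)).powerset,
          (if ¬ good n0 (B ∩ range n0) ∧ good (n0 + (s + 1 + r)) B then (1:ℝ) else 0)
          ≤ ∑ B ∈ (range (n0 + (s + 1 + r))).powerset,
          (if ¬ good n0 (B ∩ range n0) ∧ good (n0 + (s + 1 + r)) B then (1:ℝ) else 0) := by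
        apply Finset.sum_le_sum_of_subset_of_nonneg
        · apply powerset_mono.2
          apply range_mono
          omega
        · intro A _ _
          split_ifs <;> norm_num
      refine le_trans ?_ h1
      rw [range_add_one, sum_powerset_insert notMem_range_self]
      have h2 : 0 ≤ ∑ t ∈ (range k).powerset,
          (if ¬ good n0 (t ∩ range n0) ∧ good (n0 + (s + 1 + r)) t then (1:ℝ) else 0) := by
        apply Finset.sum_nonneg
        intro A _
        split_ifs <;> norm_num
      linarith
    have hp : (0:ℝ) ≤ (1 / 2) ^ (k + 1) := by positivity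
    have h1 := mul_le_mul_of_nonneg_right hs1 hp
    have h2 := mul_le_mul_of_nonneg_right hs2 hp
    have e1 : (2:ℝ) ^ (n0 + (s + r)) * η * (1 / 2) ^ (k + 1) = ε / 6 := by
      rw [hη, hkdef]
      have : (2:ℝ) ^ (n0 + (s + r)) * (ε / 3 * (1 / 2) ^ r) * (1 / 2) ^ (n0 + s + 1)
        = ε / 6 * (2 ^ (n0 + (s + r)) * (1 / 2) ^ (n0 + (s + r))) := by ring
      rw [this, ← mul_pow]; norm_num
    have e2 : (2:ℝ) ^ (n0 + (s + 1 + r)) * η * (1 / 2) ^ (k + 1) = ε / 3 := by
      rw [hη, hkdef]
      have : (2:ℝ) ^ (n0 + (s + 1 + r)) * (ε / 3 * (1 / 2) ^ r) * (1 / 2) ^ (n0 + s + 1)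
        = ε / 3 * (2 ^ (n0 + (s + 1 + r)) * (1 / 2) ^ (n0 + (s + 1 + r))) := by ring
      rw [this, ← mul_pow]; norm_num
    have e3 : (((2:ℕ) ^ k : ℕ) : ℝ) * (3 * (1 / 2) ^ r * (1 / 2) ^ k) = 3 * (1 / 2) ^ r := by
      push_cast
      have : (2:ℝ) ^ k * (3 * (1 / 2) ^ r * (1 / 2) ^ k) = 3 * (1 / 2) ^ r * (2 ^ k * (1 / 2) ^ k) := by
        ring
      rw [this, ← mul_pow]; norm_num
    rw [e3]
    linarith

end Pool.Agent.R272.RT
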