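import Pool.Agent.R272.RT.Reg

/-!
# Failure of relative weak compactness, and condition (a)
-/

set_option autoImplicit false

noncomputable section

namespace Pool.Agent.R272.RT

open Finset
open Pool.Agent.H266R3.LF

theorem condA : CondA rt (Set.range ff) := by
  intro ε hε
  refine ⟨ε, hε, ?_⟩
  intro n a x y hxy hconv I hI
  have hne : (Set.range ff).Nonempty := ⟨ff 0, 0, rfl⟩
  have hmain : ∑ i ∈ I, |a i| - ε ≤ Metric.infDist (∑ i, a i • mol rt (x i) (y i)) (Set.range ff) := by
    rw [Metric.le_infDist hne]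
    rintro _ ⟨k, rfl⟩
    have h1 := cond_a_core htreeD a x y hxy hconv I (range k).powerset (fun A => pD (chr A))
      (fun A => pD (chr (insert k A))) (by
        intro A hA
        rw [mem_powerset] at hA
        exact ptF_le hA) (by
        intro A hA A' hA' hne
        rw [mem_powerset] at hA hA'
        exact ptF_sep hA hA' hne)
    rw [dist_eq_norm]
    have h2 : ∑ j ∈ (range k).powerset, (dl rt (pD (chr (insert k j))) - dl rt (pD (chr j))) = ff k :=
      rfl
    rw [h2] at h1
    linarith
  linarith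

lemma finite_support (ν : StrongDual ℝ (Lip0 TD rt))
    (hν : ν ∈ Submodule.span ℝ (Set.range (dlt TD rt))) :
    ∃ F : Finset TD, ∀ h : Lip0 TD rt, (∀ z ∈ F, h.fn z = 0) → ν h = 0 := by
  classical
  induction hν using Submodule.span_induction with
  | mem x hx =>
    obtain ⟨p, rfl⟩ := hx
    exact ⟨{p}, fun h hh => hh p (mem_singleton_self p)⟩
  | zero => exact ⟨∅, fun h _ => rfl⟩
  | add x y _ _ ihx ihy =>
    obtain ⟨F, hF⟩ := ihx
    obtain ⟨G, hG⟩ := ihy
    refine ⟨F ∪ G, fun h hh => ?_⟩
    rw [add_apply, hF h fun z hz => hh z (mem_union_left _ hz),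
      hG h fun z hz => hh z (mem_union_right _ hz), add_zero]
  | smul c x _ ih =>
    obtain ⟨F, hF⟩ := ih
    exact ⟨F, fun h hh => by rw [smul_apply, hF h hh, smul_zero]⟩

lemma exists_test (f : FreeSp TD rt) : ∃ h : Lip0 TD rt, |inc TD rt f h| ≤ 1 / 8 ∧
    ∀ᶠ k in Filter.atTop, 1 / 4 ≤ inc TD rt (ff k) h := by
  classical
  have hf : inc TD rt f ∈ closure
      ((Submodule.span ℝ (Set.range (dlt TD rt)) : Submodule ℝ _) : Set _) := inc_mem f
  rw [Metric.mem_closure_iff] at hf
  obtain ⟨ν, hν, hd⟩ := hf (1 / 8) (by norm_num)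
  obtain ⟨F0, hF0⟩ := finite_support ν hν
  set F : Finset TD := insert rt F0 with hF
  let T' : Set TD := {t | ∃ z ∈ F, le rt t z}
  have hT'ne : T'.Nonempty := ⟨rt, rt, mem_insert_self _ _, le_refl _⟩
  let g : TD → ℝ := fun x => Metric.infDist x T'
  have hg1 : ∀ x y, |g x - g y| ≤ 1 * dist x y := by
    intro x y
    have := (Metric.lipschitz_infDist_pt T').dist_le_mul x y
    rwa [Real.dist_eq, NNReal.coe_one] at this
  have hg0 : g rt = 0 := Metric.infDist_zero_of_mem ⟨rt, mem_insert_self _ _, le_refl _⟩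
  let h : Lip0 TD rt := Lip0.mk g hg0 1 zero_le_one hg1
  have hh1 : ‖h‖ ≤ 1 := Lip0.norm_le' _ zero_le_one hg1
  have hhfn : ∀ x, h.fn x = g x := fun x => rfl
  refine ⟨h, ?_, ?_⟩
  · have h1 : ν h = 0 := hF0 h fun z hz =>
      Metric.infDist_zero_of_mem ⟨z, mem_insert_of_mem hz, le_refl _⟩
    have h2 : inc TD rt f h = (inc TD rt f - ν) h := by rw [sub_apply, h1, sub_zero]
    rw [h2]
    rw [dist_eq_norm] at hd
    calc |(inc TD rt f - ν) h| ≤ ‖inc TD rt f - ν‖ * ‖h‖ := (inc TD rt f - ν).le_opNorm h
      _ ≤ (1 / 8) * 1 := by gcongr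
      _ = 1 / 8 := mul_one _
  · -- the main estimate
    have hmain : ∀ k, 1 / 2 - (F.card : ℝ) * (1 / 2) ^ k ≤ inc TD rt (ff k) h := by
      intro k
      have h1 : inc TD rt (ff k) h
          = ∑ A ∈ (range k).powerset, (g (pD (chr (insert k A))) - g (pD (chr A))) := by
        unfold ff
        rw [map_sum, _root_.sum_apply]
        apply Finset.sum_congr rfl
        intro A _
        rw [map_sub, sub_apply, inc_dl, inc_dl, hhfn, hhfn]
      let B : Finset (Finset ℕ) := (range k).powerset.filter
        (fun A => ∃ z ∈ F, dist rt (pD (chr A)) < gp rt (pD (chr (insert k A))) z)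
      have hBcard : B.card ≤ F.card := by
        have hsel : ∀ A ∈ B, ∃ z ∈ F, dist rt (pD (chr A)) < gp rt (pD (chr (insert k A))) z :=
          fun A hA => (Finset.mem_filter.1 hA).2
        have : Nonempty TD := ⟨rt⟩
        choose! sel hsel1 hsel2 using hsel
        refine Finset.card_le_card_of_injOn sel (fun A hA => Finset.mem_coe.2 (hsel1 A hA)) ?_
        intro A hA A' hA' heq
        by_contra hne
        have hA1 := mem_powerset.1 (Finset.mem_filter.1 hA).1
        have hA1' := mem_powerset.1 (Finset.mem_filter.1 hA').1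
        have e1 := hsel2 A hA
        have e2 := hsel2 A' hA'
        have e3 : gp rt (pD (chr (insert k A))) (pD (chr (insert k A'))) ≤ dist rt (pD (chr A)) :=
          ptF_sep hA1 hA1' hne
        have e4 : gp rt (pD (chr (insert k A'))) (pD (chr (insert k A))) ≤ dist rt (pD (chr A')) :=
          ptF_sep hA1' hA1 (Ne.symm hne)
        have e5 := htreeD.hyp (pD (chr (insert k A))) (sel A) (pD (chr (insert k A')))
        rw [← heq, gp_comm] at e2
        rw [gp_comm] at e4
        rw [min_le_iff] at e5
        rcases e5 with e5 | e5 <;> linarith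
      have hterm : ∀ A ∈ (range k).powerset, (1 / 2 : ℝ) ^ (k + 1)
          - (if A ∈ B then 2 * (1 / 2 : ℝ) ^ (k + 1) else 0)
          ≤ g (pD (chr (insert k A))) - g (pD (chr A)) := by
        intro A hA
        have hA' := mem_powerset.1 hA
        have hdist := pD_insert_dist hA'
        split_ifs with hAB
        · have := (abs_le.1 (hg1 (pD (chr (insert k A))) (pD (chr A)))).1
          rw [hdist] at this
          linarith
        · have hno : ∀ z ∈ F, gp rt (pD (chr (insert k A))) z ≤ dist rt (pD (chr A)) := by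
            intro z hz
            by_contra hcon
            exact hAB (Finset.mem_filter.2 ⟨hA, z, hz, not_le.1 hcon⟩)
          have hle : le rt (pD (chr A)) (pD (chr (insert k A))) := ptF_le hA'
          have hdiff := (le_iff _ _).1 hle
          rw [dist_comm, hdist] at hdiff
          have hkey : g (pD (chr A)) + (1 / 2 : ℝ) ^ (k + 1) ≤ g (pD (chr (insert k A))) := by
            change _ ≤ Metric.infDist _ _
            rw [Metric.le_infDist hT'ne]
            rintro t ⟨z, hz, htz⟩
            have h2 : g (pD (chr A)) ≤ dist (pD (chr A)) t :=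
              Metric.infDist_le_dist_of_mem ⟨z, hz, htz⟩
            have h3 : gp rt (pD (chr (insert k A))) t ≤ gp rt (pD (chr (insert k A))) z := by
              have h4 := htreeD.hyp (pD (chr (insert k A))) t z
              rw [htz] at h4
              have h5 := gp_le_right (o := rt) (pD (chr (insert k A))) t
              rwa [min_eq_left h5] at h4
            have h4 : gp rt (pD (chr (insert k A))) t ≤ gp rt (pD (chr A)) t := by
              have h5 := htreeD.hyp (pD (chr A)) (pD (chr (insert k A))) t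
              rw [hle, min_eq_right (h3.trans (hno z hz))] at h5
              exact h5
            rw [dist_eq (o := rt) (pD (chr (insert k A))) t]
            rw [dist_eq (o := rt) (pD (chr A)) t] at h2
            linarith
          linarith
      have hsum := Finset.sum_le_sum hterm
      rw [← h1, Finset.sum_sub_distrib, sum_const, card_powerset, card_range, nsmul_eq_mul,
        Finset.sum_ite_mem] at hsum
      have hB2 : (range k).powerset ∩ B = B := inter_eq_right.2 (Finset.filter_subset _ _)
      rw [hB2, sum_const, nsmul_eq_mul] at hsum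
      have e1 : (((2:ℕ) ^ k : ℕ) : ℝ) * (1 / 2 : ℝ) ^ (k + 1) = 1 / 2 := by
        push_cast
        rw [pow_succ, ← mul_assoc, ← mul_pow]; norm_num
      rw [e1] at hsum
      have e2 : (B.card : ℝ) * (2 * (1 / 2) ^ (k + 1)) ≤ (F.card : ℝ) * (1 / 2) ^ k := by
        have : (2:ℝ) * (1 / 2) ^ (k + 1) = (1 / 2) ^ k := by rw [pow_succ]; ring
        rw [this]
        have : (B.card : ℝ) ≤ F.card := by exact_mod_cast hBcard
        gcongr
      linarith
    have hlim : Filter.Tendsto (fun k : ℕ => 1 / 2 - (F.card : ℝ) * (1 / 2) ^ k) Filter.atTop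
        (nhds (1 / 2 - (F.card : ℝ) * 0)) :=
      ((tendsto_pow_atTop_nhds_zero_of_lt_one (by norm_num) (by norm_num)).const_mul _).const_sub _
    rw [mul_zero, sub_zero] at hlim
    filter_upwards [hlim.eventually (lt_mem_nhds (show (1 / 4 : ℝ) < 1 / 2 by norm_num))] with k hk
    exact hk.le.trans (hmain k)

theorem not_weaklyCompact : ¬ RelWeaklyCompact rt (Set.range ff) := by
  intro hcomp
  have hmem : ∀ k, toWeakSpace ℝ (FreeSp TD rt) (ff k) ∈
      closure (toWeakSpace ℝ (FreeSp TD rt) '' (Set.range ff)) := fun k =>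
    subset_closure ⟨ff k, ⟨k, rfl⟩, rfl⟩
  obtain ⟨z, _, hz⟩ := hcomp.exists_mapClusterPt
    (f := Filter.atTop) (u := fun k => toWeakSpace ℝ (FreeSp TD rt) (ff k))
    (by
      rw [Filter.le_principal_iff]
      exact Filter.mem_map.2 (Filter.univ_mem' hmem))
  obtain ⟨f, rfl⟩ := (toWeakSpace ℝ (FreeSp TD rt)).surjective z
  obtain ⟨h, hh1, hh2⟩ := exists_test f
  -- evaluation at `h`
  let ev0 : FreeSp TD rt →ₗ[ℝ] ℝ :=
    { toFun := fun v => inc TD rt v h
      map_add' := fun a b => by rw [map_add, add_apply]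
      map_smul' := fun c a => by rw [map_smul, smul_apply]; rfl }
  let ev : StrongDual ℝ (FreeSp TD rt) := ev0.mkContinuous ‖h‖ (fun v => by
    rw [← norm_inc, mul_comm]
    exact (inc TD rt v).le_opNorm h)
  have hcont : Continuous (fun w : WeakSpace ℝ (FreeSp TD rt) =>
      ev ((toWeakSpace ℝ (FreeSp TD rt)).symm w)) :=
    WeakBilin.eval_continuous _ ev
  have hcl := hz.continuousAt_comp hcont.continuousAt
  have hclosed : IsClosed {r : ℝ | 1 / 4 ≤ r} := isClosed_Ici
  have h1 : ev f ∈ {r : ℝ | 1 / 4 ≤ r} := hclosed.mem_of_mapClusterPt hcl hh2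
  have h2 : ev f = inc TD rt f h := rfl
  rw [h2] at h1
  have h3 : (1:ℝ) / 4 ≤ inc TD rt f h := h1
  have h4 := le_abs_self (inc TD rt f h)
  linarith

end Pool.Agent.R272.RT
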